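import Pool.Agent.LocT.Lang
import Pool.Agent.LocT.Restr
import Pool.Agent.LocS.Addr

set_option autoImplicit false

/-!
# One scale of the language as a conjunction of copies of the polynomial function
-/

namespace Pool.Agent.LocT

open Finset Pool.Agent.NegLim Pool.Agent.NegLim.Lang Pool.Agent.NegLim.NPL Pool.Agent.NTR
  Pool.Agent.LocE Pool.Agent.LocS

lemma polyFn_one (q w N : ℕ) : polyFn q w N (fun _ => true) = true := by
  rw [polyFn_iff]
  exact ⟨fun _ => 0, fun _ => rfl⟩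

/-- After the restriction the language is the conjunction of `r'` copies. -/
theorem exists_restriction (d n j : ℕ) (hj : j < lgc n)
    (hc1 : (2 * 2 ^ j + 1) * lgc n ≤ n / d) (hc2 : sq (lgc n) (2 ^ j) ≤ n) (hl : 2 ≤ lgc n)
    (hnl : n ≤ 2 ^ lgc n) (U : Finset (Fin n)) (r' : ℕ) (hrr : r' ≤ sr n (lgc n) (2 ^ j))
    (hr0 : 0 < sr n (lgc n) (2 ^ j)) (hr : r' * (4 * sB (lgc n) (2 ^ j)) ≤ U.card) :
    ∃ φ : Fin n → (Fin r' × (Fin (sN (lgc n) (2 ^ j)) × ZMod (sq (lgc n) (2 ^ j)))) ⊕ Bool,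
      (∀ v, v ∉ U → ∃ c, φ v = .inr c) ∧
      ∀ y : Fin r' × (Fin (sN (lgc n) (2 ^ j)) × ZMod (sq (lgc n) (2 ^ j))) → Bool,
        langT d (List.ofFn fun v => Sum.elim y id (φ v)) = true ↔
          ∀ i, polyFn (sq (lgc n) (2 ^ j)) (2 ^ j) (sN (lgc n) (2 ^ j))
            (fun b => y (i, b)) = true := by
  classical
  obtain ⟨l, hldef⟩ : ∃ l, l = lgc n := ⟨_, rfl⟩
  rw [← hldef] at hj hc1 hc2 hl hnl hrr hr0 hr ⊢
  set κ := n / (2 * l) with hκ
  have hn : κ * l * 2 ≤ n := by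
    calc κ * l * 2 = n / (2 * l) * (2 * l) := by rw [hκ]; ring
      _ ≤ n := Nat.div_mul_le_self _ _
  have hcard : Fintype.card (Fin (sN l (2 ^ j)) × ZMod (sq l (2 ^ j))) = sB l (2 ^ j) := by
    rw [Fintype.card_prod, Fintype.card_fin, ZMod.card]
    rfl
  have hNpos : ∀ j' : ℕ, 0 < sN l (2 ^ j') := by
    intro j'
    unfold sN
    have : 0 < 2 ^ j' := by positivity
    positivity
  -- the selectors of the scale
  have hh0 : ∀ (b : Bool) (i : Fin (sr n l (2 ^ j))),
      (if b then sr n l (2 ^ j) else 0) + (i : ℕ) < 2 * sr n l (2 ^ j) := by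
    intro b i
    have := i.isLt
    split_ifs <;> omega
  let E : (Bool × Fin (sr n l (2 ^ j))) × (Fin (sN l (2 ^ j)) × ZMod (sq l (2 ^ j))) → Fin κ :=
    fun s => ⟨j * srho n l + ((if s.1.1 then sr n l (2 ^ j) else 0) + (s.1.2 : ℕ)) * sB l (2 ^ j)
      + ((s.2.1 : ℕ) * sq l (2 ^ j) + s.2.2.val),
      (sel_lt (by omega) hj (hh0 s.1.1 s.1.2) s.2.1.isLt (ZMod.val_lt s.2.2)).2⟩
  have hEv : ∀ s, (E s : ℕ) = j * srho n l
      + ((if s.1.1 then sr n l (2 ^ j) else 0) + (s.1.2 : ℕ)) * sB l (2 ^ j)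
      + ((s.2.1 : ℕ) * sq l (2 ^ j) + s.2.2.val) := fun s => rfl
  have hE : Function.Injective E := by
    rintro ⟨⟨b, i⟩, ⟨a, v⟩⟩ ⟨⟨b', i'⟩, ⟨a', v'⟩⟩ heq
    have h0 := congrArg Fin.val heq
    rw [hEv, hEv] at h0
    simp only at h0
    have hv : v.val < sq l (2 ^ j) := ZMod.val_lt v
    have hv' : v'.val < sq l (2 ^ j) := ZMod.val_lt v'
    have b1 : (a : ℕ) * sq l (2 ^ j) + v.val < sB l (2 ^ j) := by
      unfold sB
      have h1 : ((a : ℕ) + 1) * sq l (2 ^ j) ≤ sN l (2 ^ j) * sq l (2 ^ j) :=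
        Nat.mul_le_mul_right _ a.isLt
      have h2 : ((a : ℕ) + 1) * sq l (2 ^ j) = a * sq l (2 ^ j) + sq l (2 ^ j) := by ring
      omega
    have b1' : (a' : ℕ) * sq l (2 ^ j) + v'.val < sB l (2 ^ j) := by
      unfold sB
      have h1 : ((a' : ℕ) + 1) * sq l (2 ^ j) ≤ sN l (2 ^ j) * sq l (2 ^ j) :=
        Nat.mul_le_mul_right _ a'.isLt
      have h2 : ((a' : ℕ) + 1) * sq l (2 ^ j) = a' * sq l (2 ^ j) + sq l (2 ^ j) := by ring
      omega
    have h00 : ((if b then sr n l (2 ^ j) else 0) + (i : ℕ)) * sB l (2 ^ j)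
        + ((a : ℕ) * sq l (2 ^ j) + v.val)
        = ((if b' then sr n l (2 ^ j) else 0) + (i' : ℕ)) * sB l (2 ^ j)
        + ((a' : ℕ) * sq l (2 ^ j) + v'.val) := by omega
    obtain ⟨h5, h6⟩ := divmod_inj b1 b1' h00
    obtain ⟨h7, h8⟩ := divmod_inj hv hv' h6
    have hbi : b = b' ∧ i = i' := by
      have := i.isLt
      have := i'.isLt
      cases b <;> cases b' <;> simp at h5 ⊢ <;> omega
    obtain ⟨rfl, rfl⟩ := hbi
    have ha : a = a' := Fin.ext h7
    have hvv : v = v' := ZMod.val_injective _ h8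
    subst ha hvv
    rfl
  obtain ⟨φ, hf, hφ, hsel⟩ := exists_pool_restrictionA hl (code l) (code_injective hnl) (AS hn)
    (AS_injective hn) E hE U r' hrr (by rw [hcard]; exact hr)
  refine ⟨φ, hφ, fun y => ?_⟩
  rw [langT_iff, ← hldef]
  -- the number of a block
  have hnum : ∀ (h k : ℕ), h < 2 → k < sr n l (2 ^ j) →
      h * sr n l (2 ^ j) + k < 2 * sr n l (2 ^ j) := by
    intro h k hh hk
    have h1 : h * sr n l (2 ^ j) ≤ 1 * sr n l (2 ^ j) := Nat.mul_le_mul_right _ (by omega)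
    omega
  have hhf : (if hf then 1 else 0) * sr n l (2 ^ j) = if hf then sr n l (2 ^ j) else 0 := by
    cases hf <;> simp
  constructor
  · rintro ⟨j', hj', hc1', hc2', hr', h, hh, hall⟩ i
    have hnum' : h * sr n l (2 ^ j') + 0 < 2 * sr n l (2 ^ j') := by
      have h1 : h * sr n l (2 ^ j') ≤ 1 * sr n l (2 ^ j') := Nat.mul_le_mul_right _ (by omega)
      omega
    -- the selector of the first point of the first block
    obtain ⟨c, hc⟩ := hall 0 hr'
    have hfirst := hc 0 (hNpos j')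
    have hlt := sel_lt (n := n) (by omega) hj' hnum' (hNpos j') (ZMod.val_lt (pval c 0))
    set k : Fin κ := ⟨j' * srho n l + (h * sr n l (2 ^ j') + 0) * sB l (2 ^ j')
      + (0 * sq l (2 ^ j') + (pval c 0).val), hlt.2⟩ with hk
    have hpv : poolVal (code l) (AS hn) (fun v => Sum.elim y id (φ v)) k :=
      (sel_iff hn _ k).mp hfirst
    have hchosen : ∃ i β, E ((hf, i), β) = k := by
      by_contra hcon
      push Not at hcon
      exact (hsel y).2.2 k hcon hpv
    obtain ⟨i₀, β, hiβ⟩ := hchosen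
    have h9 := congrArg Fin.val hiβ
    rw [hEv] at h9
    simp only [hk] at h9
    have hlt2 := sel_lt (n := n) (by omega) hj (hh0 hf i₀) β.1.isLt (ZMod.val_lt β.2)
    -- the scale is the same
    have hjj : j' = j := by
      rcases lt_trichotomy j' j with h10 | h10 | h10
      · exfalso
        have h11 : (j' + 1) * srho n l ≤ j * srho n l := Nat.mul_le_mul_right _ h10
        have h12 := hlt.1
        omega
      · exact h10
      · exfalso
        have h11 : (j + 1) * srho n l ≤ j' * srho n l := Nat.mul_le_mul_right _ h10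
        have h12 := hlt2.1
        omega
    subst hjj
    -- the half is the same
    have hsB : 0 * sq l (2 ^ j') + (pval c 0).val < sB l (2 ^ j') := by
      unfold sB
      have h1 : 1 * sq l (2 ^ j') ≤ sN l (2 ^ j') * sq l (2 ^ j') :=
        Nat.mul_le_mul_right _ (hNpos j')
      have h2 := ZMod.val_lt (pval c 0)
      omega
    have hsB' : (β.1 : ℕ) * sq l (2 ^ j') + β.2.val < sB l (2 ^ j') := by
      unfold sB
      have h1 : ((β.1 : ℕ) + 1) * sq l (2 ^ j') ≤ sN l (2 ^ j') * sq l (2 ^ j') :=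
        Nat.mul_le_mul_right _ β.1.isLt
      have h2 : ((β.1 : ℕ) + 1) * sq l (2 ^ j') = β.1 * sq l (2 ^ j') + sq l (2 ^ j') := by ring
      have h3 := ZMod.val_lt β.2
      omega
    have h13 : ((if hf then sr n l (2 ^ j') else 0) + (i₀ : ℕ)) * sB l (2 ^ j')
        + ((β.1 : ℕ) * sq l (2 ^ j') + β.2.val)
        = (h * sr n l (2 ^ j') + 0) * sB l (2 ^ j') + (0 * sq l (2 ^ j') + (pval c 0).val) := by
      omega
    obtain ⟨h14, -⟩ := divmod_inj hsB' hsB h13
    have hhalf : (if hf then 1 else 0) = h := by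
      have hi0 := i₀.isLt
      rw [← hhf] at h14
      have h15 : (i₀ : ℕ) + (if hf then 1 else 0) * sr n l (2 ^ j') =
          0 + h * sr n l (2 ^ j') := by omega
      have h16 : (if hf then 1 else 0) * sr n l (2 ^ j') + (i₀ : ℕ) =
          h * sr n l (2 ^ j') + 0 := by omega
      exact (divmod_inj hi0 hr' h16).1
    -- the block `i`
    obtain ⟨c', hc'⟩ := hall (Fin.castLE hrr i) (Fin.castLE hrr i).isLt
    rw [polyFn_iff]
    refine ⟨c', fun a => ?_⟩
    rw [← (hsel y).1 i (a, pval c' (a : ℕ)), ← sel_iff hn]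
    have h15 := hc' a a.isLt
    rw [hEv]
    simp only
    rw [← hhf, hhalf]
    exact h15
  · intro hall
    refine ⟨j, hj, hc1, hc2, hr0, if hf then 1 else 0, by cases hf <;> simp, fun k hk => ?_⟩
    by_cases hi : ∃ i' : Fin r', (Fin.castLE hrr i' : ℕ) = k
    · obtain ⟨i', rfl⟩ := hi
      have h1 := hall i'
      rw [polyFn_iff] at h1
      obtain ⟨c, hc⟩ := h1
      refine ⟨c, fun a ha => ?_⟩
      have h2 := ((hsel y).1 i' (⟨a, ha⟩, pval c a)).mpr (hc ⟨a, ha⟩)
      rw [← sel_iff hn, hEv] at h2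
      simp only at h2
      rw [← hhf] at h2
      exact h2
    · push Not at hi
      refine ⟨fun _ => 0, fun a ha => ?_⟩
      have h2 := (hsel y).2.1 ⟨k, hk⟩ (⟨a, ha⟩, pval (fun _ : Fin (2 * 2 ^ j) => (0 : ZMod (sq l (2 ^ j)))) a)
        (fun i' hi' => hi i' (congrArg Fin.val hi'))
      rw [← sel_iff hn, hEv] at h2
      simp only at h2
      rw [← hhf] at h2
      exact h2

end Pool.Agent.LocT
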