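import Pool.Agent.LocT.Main
import Pool.Agent.AVZ.Main
import Pool.Agent.RC.HiddenReal

/-!
# Average case: one language for all sizes, real gates, few accepting guesses
-/

set_option autoImplicit false

namespace Pool.Agent.LocT

open Finset Pool.Agent.NegLim Pool.Agent.NegLim.Lang Pool.Agent.NegLim.NPL Pool.Agent.NTR
  Pool.Agent.NTR.Gen Pool.Agent.NWE Pool.Agent.GB24 Pool.Agent.GB24.Loc
  Pool.Agent.NTN Pool.Agent.PolyTime Pool.Agent.LocE Pool.Agent.LocS Pool.Agent.RC Pool.Agent.AVZ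
open scoped BigOperators

open Classical in
/-- **One block.** Distributions which disjunctions of few functions decided by small monotone real
circuits do not tell apart. -/
theorem block_avg (n s S A l j : ℕ) (hn : 2 ≤ n) (hl : l = lgc n) (hjs : j = sj s l)
    (hU : sD l j ≤ n) (hA : A * (S + 1) ≤ 2 ^ s + n) :
    ∃ D₀ D₁ : (Fin (sN l (2 ^ j)) × ZMod (sq l (2 ^ j)) → Bool) → ℝ,
      (∀ u, 0 ≤ D₀ u) ∧ ∑ u, D₀ u = 1 ∧
      (∀ u, D₀ u ≠ 0 → polyFn (sq l (2 ^ j)) (2 ^ j) (sN l (2 ^ j)) u = false) ∧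
      (∀ u, 0 ≤ D₁ u) ∧ ∑ u, D₁ u = 1 ∧
      (∀ u, D₁ u ≠ 0 → polyFn (sq l (2 ^ j)) (2 ^ j) (sN l (2 ^ j)) u = true) ∧
      ∀ H ∈ orSet (realClass S) (Fin (sN l (2 ^ j)) × ZMod (sq l (2 ^ j))) A,
        ∑ u with H u = true, D₁ u ≤ ∑ u with H u = true, D₀ u + 1 / n := by
  obtain ⟨hj, hc1, hc2, hB⟩ := numbers n 1 s (by omega) le_rfl (by
    rw [one_mul, ← hl, ← hjs]
    exact hU)
  have herr := error_le n s (by omega) hc2
  have hl2 : 2 ≤ lgc n := two_le_lgc (by omega)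
  have hnl : n < 2 ^ lgc n := lt_two_pow_lgc n
  rw [← hl, ← hjs] at hj hc1 hc2 hB herr
  rw [← hl] at hl2 hnl
  have hw : 1 ≤ 2 ^ j := Nat.one_le_two_pow
  have hq1 : 512 * (2 ^ j * (l + 1) ^ 2) < sq l (2 ^ j) := by
    have := (sq_spec l j).2.2
    omega
  have hl1 : 2 ^ j * 1 ≤ 2 ^ j * (l + 1) ^ 2 :=
    Nat.mul_le_mul_left _ (Nat.one_le_pow _ _ (by omega))
  -- the block
  obtain ⟨M, hM⟩ : ∃ M, M + 1 = 2 * (2 ^ j * (l + 1) ^ 2) :=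
    ⟨2 * (2 ^ j * (l + 1) ^ 2) - 1, by omega⟩
  have hNw : 2 * 2 ^ j ≤ sN l (2 ^ j) := by
    unfold sN
    calc 2 * 2 ^ j ≤ 4 * 2 ^ j := by omega
      _ = 4 * 2 ^ j * 1 := by ring
      _ ≤ 4 * 2 ^ j * l := Nat.mul_le_mul_left _ (by omega)
  have hNq : sN l (2 ^ j) ≤ sq l (2 ^ j) := by
    have h1 : 4 * 2 ^ j * l ≤ 512 * (2 ^ j * (l + 1) ^ 2) := by
      calc 4 * 2 ^ j * l ≤ 512 * 2 ^ j * (l + 1) ^ 2 := by
            apply Nat.mul_le_mul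
            · omega
            · nlinarith
        _ = 512 * (2 ^ j * (l + 1) ^ 2) := by ring
    exact h1.trans hq1.le
  have hMq : 256 * (M + 1) ≤ sq l (2 ^ j) := by
    rw [hM]
    omega
  have hL : 2 * 2 ^ j < 2 ^ (l + 1) := by
    have h1 : 2 ^ j < 2 ^ l := Nat.pow_lt_pow_right (by norm_num) hj
    rw [pow_succ]
    omega
  have hk : (sN l (2 ^ j) * sq l (2 ^ j) + 1) ^ (2 * 2 ^ j) * 4 ^ (2 ^ j)
      ≤ 4 ^ (2 ^ j * (l + 1)) := by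
    have h1 : sN l (2 ^ j) * sq l (2 ^ j) + 1 ≤ 2 ^ l := by
      have h2 : sN l (2 ^ j) * sq l (2 ^ j) ≤ n := hB
      omega
    calc (sN l (2 ^ j) * sq l (2 ^ j) + 1) ^ (2 * 2 ^ j) * 4 ^ (2 ^ j)
        ≤ (2 ^ l) ^ (2 * 2 ^ j) * 4 ^ (2 ^ j) :=
          Nat.mul_le_mul_right _ (Nat.pow_le_pow_left h1 _)
      _ = 4 ^ (2 ^ j * l) * 4 ^ (2 ^ j) := by
          congr 1
          rw [← pow_mul, show l * (2 * 2 ^ j) = 2 * (2 ^ j * l) from by ring, pow_mul]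
          norm_num
      _ = 4 ^ (2 ^ j * (l + 1)) := by
          rw [← pow_add, mul_add, mul_one]
  have hLk : 2 * ((l + 1) * (2 ^ j * (l + 1))) ≤ M + 1 := by
    rw [hM]
    apply le_of_eq
    ring
  obtain ⟨D₀, D₁, h0, h0s, h0z, h1, h1s, h1z, hD⟩ :=
    poly_blockR (sN l (2 ^ j)) (2 ^ j) M (l + 1) (2 ^ j * (l + 1)) (sq l (2 ^ j)) (2 ^ s + n)
      hw hNw hNq hMq hL hk hLk
  refine ⟨D₀, D₁, h0, h0s, h0z, h1, h1s, h1z, fun H hH => ?_⟩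
  obtain ⟨Gs, hGl, hGm, hGH⟩ := hH
  obtain ⟨s', D, F, g1, g2, g3, g4, g5⟩ := RC.or_list (S := S) Gs fun G hG => by
    obtain ⟨C, out, ψ, h0, hS, hF⟩ := hGm G hG
    exact RC.rfun_of_circuit C out ψ h0 hS hF
  have hg : RFun (2 ^ s + n) H := by
    refine ⟨s', g1.trans ((Nat.mul_le_mul_right _ hGl).trans hA), D, g2, F, g3, thr 1, fun z => ?_⟩
    rw [Bool.eq_iff_iff, thr_iff, hGH z, ← g5 z]
    rcases g4 z with h | h <;> rw [h] <;> norm_num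
  refine (hD H hg).trans (add_le_add_right ?_ _)
  have hn0 : (0 : ℝ) < n := by exact_mod_cast (by omega : 0 < n)
  rw [le_div_iff₀ hn0]
  exact herr

/-- `avg_sees` with a decidable equality on the block. -/
theorem avg_sees_dec {ι β : Type} [Fintype ι] [DecidableEq ι] [Fintype β] [inst : DecidableEq β]
    {U : Finset ι} {r A : ℕ}
    (hr : 1 ≤ r) (K : MonoClass) (g : (β → Bool) → Bool) (f : (ι → Bool) → Prop)
    (φ : ι → (Fin r × β) ⊕ Bool) (hφ : ∀ v, v ∉ U → ∃ c, φ v = .inr c)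
    (hf : ∀ y : Fin r × β → Bool, f (fun v => Sum.elim y id (φ v)) ↔
      ∀ i, g (fun b => y (i, b)) = true)
    (D₀ D₁ : (β → Bool) → ℝ) (h0 : ∀ u, 0 ≤ D₀ u) (h0s : ∑ u, D₀ u = 1)
    (h0z : ∀ u, D₀ u ≠ 0 → g u = false) (h1 : ∀ u, 0 ≤ D₁ u) (h1s : ∑ u, D₁ u = 1)
    (h1z : ∀ u, D₁ u ≠ 0 → g u = true) (δ : ℝ)
    (hδ : ∀ H ∈ orSet K β A, ∑ u with H u = true, D₁ u ≤ ∑ u with H u = true, D₀ u + δ)
    (K' : ((ι → Option Bool) → Bool) → Prop)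
    (hK' : ∀ D, K' D → ∃ F, K.mem (ι ⊕ ι) F ∧ ∀ p, D p = F (known p)) :
    HardAvg f U K' A (δ / 2) (1 / (2 * r)) := by
  have e : inst = fun a b => Classical.propDecidable (a = b) := Subsingleton.elim _ _
  subst e
  exact avg_sees hr K g f φ hφ hf D₀ D₁ h0 h0s h0z h1 h1s h1z δ hδ K' hK'

open Classical in
/-- Large error bound: nothing to prove. -/
lemma hardAvg_triv {n X : ℕ} (f : (Fin n → Bool) → Prop) (U : Finset (Fin n))
    (K : ((Fin n → Option Bool) → Bool) → Prop) (A : ℕ) (hu : 1 ≤ U.card) (hX : U.card ≤ X) :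
    HardAvg f U K A ((X : ℝ) / U.card) ((X : ℝ) / U.card) := by
  have hu' : (0 : ℝ) < U.card := by exact_mod_cast hu
  obtain ⟨ρ, μ, hμ0, hμ1, hρ⟩ := exists_prob' n
  refine ⟨ρ, μ, hμ0, hμ1, fun x hx v _ => congrFun (hρ x hx) v, fun Y _ w D _ _ => ?_⟩
  have h1 : (1 : ℝ) ≤ X / U.card := by
    rw [le_div_iff₀ hu', one_mul]
    exact_mod_cast hX
  have h2 : (0 : ℝ) ≤ w * ((X : ℝ) / U.card) := by positivity
  exact (LocE.sum_filter_le_one μ hμ0 hμ1 _).trans (by linarith)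

open Classical in
/-- From the blocks to the whole input. -/
lemma hardAvg_core {n s r' X l j : ℕ} (f : (Fin n → Bool) → Prop) (U : Finset (Fin n))
    (hu : 1 ≤ U.card) (hr1 : 1 ≤ r') (hrn : r' ≤ n) (hUr : U.card ≤ r' * (2 * X))
    (φ : Fin n → (Fin r' × (Fin (sN l (2 ^ j)) × ZMod (sq l (2 ^ j)))) ⊕ Bool)
    (hφ1 : ∀ v, v ∉ U → ∃ c, φ v = .inr c)
    (hφ2 : ∀ x : Fin r' × (Fin (sN l (2 ^ j)) × ZMod (sq l (2 ^ j))) → Bool,
      f (fun v => Sum.elim x id (φ v)) ↔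
        ∀ k, polyFn (sq l (2 ^ j)) (2 ^ j) (sN l (2 ^ j)) (fun e => x (k, e)) = true)
    (D₀ D₁ : (Fin (sN l (2 ^ j)) × ZMod (sq l (2 ^ j)) → Bool) → ℝ)
    (h0 : ∀ u, 0 ≤ D₀ u) (h0s : ∑ u, D₀ u = 1)
    (h0z : ∀ u, D₀ u ≠ 0 → polyFn (sq l (2 ^ j)) (2 ^ j) (sN l (2 ^ j)) u = false)
    (h1 : ∀ u, 0 ≤ D₁ u) (h1s : ∑ u, D₁ u = 1)
    (h1z : ∀ u, D₁ u ≠ 0 → polyFn (sq l (2 ^ j)) (2 ^ j) (sN l (2 ^ j)) u = true)
    (hδ : ∀ H ∈ orSet (realClass (2 * 2 ^ s)) (Fin (sN l (2 ^ j)) × ZMod (sq l (2 ^ j))) (2 ^ s),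
        ∑ u with H u = true, D₁ u ≤ ∑ u with H u = true, D₀ u + 1 / n) :
    HardAvg f U
      (fun D => ∃ (C : ICircuit (Fin n)) (o : Wire (Fin n)),
        C.size ≤ 2 ^ s ∧ ∀ p, D p = decide (0 < (C.range p o).1))
      (2 ^ s) ((X : ℝ) / U.card) ((X : ℝ) / U.card) := by
  obtain ⟨ρ, μ, m1, m2, m3, m4⟩ := avg_sees_dec hr1 (realClass (2 * 2 ^ s))
    (polyFn (sq l (2 ^ j)) (2 ^ j) (sN l (2 ^ j)))
    f φ hφ1 hφ2 D₀ D₁ h0 h0s h0z h1 h1s h1z (1 / n) hδ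
    (fun D => ∃ (C : ICircuit (Fin n)) (o : Wire (Fin n)),
      C.size ≤ 2 ^ s ∧ ∀ p, D p = decide (0 < (C.range p o).1)) fun Dv h => ival_lits Dv h
  refine ⟨ρ, μ, m1, m2, m3, fun Y _ w Dv hDv hA => (m4 Y w Dv hDv hA).trans ?_⟩
  have hu' : (0 : ℝ) < U.card := by exact_mod_cast hu
  have hr0 : (0 : ℝ) < r' := by exact_mod_cast hr1
  have hn0 : (0 : ℝ) < n := by exact_mod_cast (by omega : 0 < n)
  have e1 : (1 : ℝ) / (2 * r') ≤ X / U.card := by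
    rw [div_le_div_iff₀ (by positivity) hu', one_mul]
    have e2 : (U.card : ℝ) ≤ r' * (2 * X) := by exact_mod_cast hUr
    linarith
  have e4 : (1 : ℝ) / n / 2 ≤ 1 / (2 * r') := by
    rw [div_div]
    apply one_div_le_one_div_of_le (by positivity)
    have : (r' : ℝ) ≤ n := by exact_mod_cast hrn
    linarith
  have hw0 : (0 : ℝ) ≤ w := Nat.cast_nonneg w
  have e5 : (w : ℝ) * (1 / (2 * r')) ≤ w * (X / U.card) := mul_le_mul_of_nonneg_left e1 hw0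
  linarith

/-- The numbers. -/
lemma avg_numbers {n s d u X : ℕ} (hd : 1 ≤ d) (hun : u ≤ n) (hXu : X ≤ u) (hX1 : 2 ≤ X)
    (hX : d * sD (lgc n) (sj (2 * s + lgc n + 2) (lgc n)) ≤ X) :
    ∃ l j r', l = lgc n ∧ j = sj (2 * s + lgc n + 2) l ∧
      j < l ∧ (2 * 2 ^ j + 1) * l ≤ n / d ∧ sq l (2 ^ j) ≤ n ∧
      r' ≤ sr n l (2 ^ j) ∧ 1 ≤ r' ∧ r' ≤ n ∧ r' * (4 * sB l (2 ^ j)) ≤ u ∧
      u ≤ r' * (2 * X) ∧ sD l j ≤ n := by
  have hn2 : 2 ≤ n := hX1.trans (hXu.trans hun)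
  obtain ⟨s', hs'⟩ : ∃ s', s' = 2 * s + lgc n + 2 := ⟨_, rfl⟩
  rw [← hs'] at hX ⊢
  obtain ⟨l, hl⟩ : ∃ l, l = lgc n := ⟨_, rfl⟩
  rw [← hl] at hX
  obtain ⟨j, hj⟩ : ∃ j, j = sj s' l := ⟨_, rfl⟩
  rw [← hj] at hX
  have hl2 : 2 ≤ l := by rw [hl]; exact two_le_lgc (by omega)
  obtain ⟨D, hD⟩ : ∃ D, D = sD l j := ⟨_, rfl⟩
  rw [← hD] at hX
  have hBpos : 0 < sB l (2 ^ j) := by
    unfold sB sN
    have := (sq_spec l j).1.pos
    positivity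
  have hDpos : 0 < D := by
    rw [hD]
    unfold sD
    positivity
  have hdD : 0 < d * D := Nat.mul_pos hd hDpos
  have hUD : d * D ≤ u := hX.trans hXu
  obtain ⟨g1, g2, g3, -⟩ := numbers n d s' (by omega) hd (by
    rw [← hl, ← hj, ← hD]
    exact hUD.trans hun)
  rw [← hl, ← hj] at g1 g2 g3
  obtain ⟨r', hr'⟩ : ∃ r', r' = u / (d * D) := ⟨_, rfl⟩
  have hrD : r' * D ≤ u := by
    calc r' * D ≤ r' * (d * D) := Nat.mul_le_mul_left _ (Nat.le_mul_of_pos_left _ hd)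
      _ ≤ u := by
          rw [hr']
          exact Nat.div_mul_le_self _ _
  have hB4 : 4 * sB l (2 ^ j) ≤ D := by
    rw [hD]
    unfold sD
    have h1 : 1 ≤ l ^ 2 := Nat.one_le_pow _ _ (by omega)
    calc 4 * sB l (2 ^ j) = 4 * 1 * sB l (2 ^ j) := by ring
      _ ≤ 4 * l ^ 2 * sB l (2 ^ j) :=
        Nat.mul_le_mul_right _ (Nat.mul_le_mul_left _ h1)
  refine ⟨l, j, r', hl, hj, g1, g2, g3, ?_, ?_, ?_, ?_, ?_, ?_⟩
  · unfold sr
    have hpos : 0 < 4 * l ^ 2 * sB l (2 ^ j) := by positivity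
    rw [Nat.le_div_iff_mul_le hpos]
    have h1 : r' * D ≤ n := hrD.trans hun
    rw [hD] at h1
    exact h1
  · rw [hr']
    exact (Nat.one_le_div_iff hdD).mpr hUD
  · rw [hr']
    exact (Nat.div_le_self _ _).trans hun
  · exact (Nat.mul_le_mul_left _ hB4).trans hrD
  · have h1 : u < d * D * (u / (d * D) + 1) := Nat.lt_mul_div_succ _ hdD
    rw [← hr'] at h1
    have hr1 : 1 ≤ r' := by
      rw [hr']
      exact (Nat.one_le_div_iff hdD).mpr hUD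
    have h2 : d * D * (r' + 1) ≤ d * D * (2 * r') := Nat.mul_le_mul_left _ (by omega)
    calc u ≤ d * D * (2 * r') := (h1.trans_le h2).le
      _ = r' * (2 * (d * D)) := by ring
      _ ≤ r' * (2 * X) := Nat.mul_le_mul_left _ (Nat.mul_le_mul_left _ hX)
  · rw [← hD]
    exact (Nat.le_mul_of_pos_left _ hd).trans (hUD.trans hun)

/-- **Average case, one length.** -/
theorem hardAvg_loc {n s d X : ℕ} (hd : 1 ≤ d) (f : (Fin n → Bool) → Prop)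
    (U : Finset (Fin n)) (hU0 : U.Nonempty) (hX1 : 2 ≤ X)
    (hX : d * sD (lgc n) (sj (2 * s + lgc n + 2) (lgc n)) ≤ X)
    (hφ : ∀ j, j < lgc n → (2 * 2 ^ j + 1) * lgc n ≤ n / d → sq (lgc n) (2 ^ j) ≤ n →
      ∀ r', r' ≤ sr n (lgc n) (2 ^ j) → 0 < sr n (lgc n) (2 ^ j) →
      r' * (4 * sB (lgc n) (2 ^ j)) ≤ U.card →
      ∃ φ : Fin n → (Fin r' × (Fin (sN (lgc n) (2 ^ j)) × ZMod (sq (lgc n) (2 ^ j)))) ⊕ Bool,
        (∀ v, v ∉ U → ∃ c, φ v = .inr c) ∧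
        ∀ x : Fin r' × (Fin (sN (lgc n) (2 ^ j)) × ZMod (sq (lgc n) (2 ^ j))) → Bool,
          f (fun v => Sum.elim x id (φ v)) ↔
            ∀ k, polyFn (sq (lgc n) (2 ^ j)) (2 ^ j) (sN (lgc n) (2 ^ j))
              (fun e => x (k, e)) = true) :
    HardAvg f U
      (fun D => ∃ (C : ICircuit (Fin n)) (o : Wire (Fin n)),
        C.size ≤ 2 ^ s ∧ ∀ p, D p = decide (0 < (C.range p o).1))
      (2 ^ s) ((X : ℝ) / U.card) ((X : ℝ) / U.card) := by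
  have hUn : U.card ≤ n := (Finset.card_le_univ U).trans (by simp)
  have hUp : 1 ≤ U.card := hU0.card_pos
  rcases lt_or_ge U.card X with hUX | hUX
  · exact hardAvg_triv f U _ _ hUp hUX.le
  · obtain ⟨l, j, r', hl, hj, g1, g2, g3, g4, g5, g6, g7, g8, g9⟩ :=
      avg_numbers hd hUn hUX hX1 hX
    rw [← hl] at hφ
    obtain ⟨φ, hφ1, hφ2⟩ := hφ j g1 g2 g3 r' g4 (by omega) g7
    obtain ⟨D₀, D₁, h0, h0s, h0z, h1, h1s, h1z, hδ⟩ := block_avg n (2 * s + lgc n + 2) (2 * 2 ^ s)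
      (2 ^ s) l j (hX1.trans (hUX.trans hUn)) hl hj g9
      (list_size n s (2 ^ s) 1 (by omega) (by omega))
    exact hardAvg_core f U hUp g5 g6 g8 φ hφ1 hφ2 D₀ D₁ h0 h0s h0z h1 h1s h1z hδ

/-- **Hidden zeros, real gates, one language for all sizes; also on average.** -/
theorem mainV : ∃ (C₀ : ℕ) (L : List Bool → Bool), InNP L ∧
    (∃ c : ℕ, DecidableInTime L (fun n => c * 2 ^ n)) ∧
    (∀ n : ℕ, Monotone fun x : Fin n → Bool => L (List.ofFn x)) ∧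
    ∀ (n s : ℕ) (U : Finset (Fin n)), U.Nonempty →
      HardAvg (fun x => L (List.ofFn x) = true) U
        (fun D => ∃ (C : ICircuit (Fin n)) (o : Wire (Fin n)),
          C.size ≤ 2 ^ s ∧ ∀ p, D p = decide (0 < (C.range p o).1))
        (2 ^ s)
        (((C₀ * (s + (Nat.log 2 n + 1)) ^ 2 * (Nat.log 2 n + 1) ^ 5 : ℕ) : ℝ) / U.card)
        (((C₀ * (s + (Nat.log 2 n + 1)) ^ 2 * (Nat.log 2 n + 1) ^ 5 : ℕ) : ℝ) / U.card) ∧
      (C₀ * (s + (Nat.log 2 n + 1)) ^ 2 * (Nat.log 2 n + 1) ^ 5 ≤ U.card →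
        HardFew (fun x => L (List.ofFn x) = true) U
          (fun D => ∃ (C : ICircuit (Fin n)) (o : Wire (Fin n)),
            C.size ≤ 2 ^ s ∧ ∀ p, D p = decide (0 < (C.range p o).1))
          ((U.card + 1) * (U.card + 1)) ((2 ^ s) ^ (U.card / (C₀ * (s + (Nat.log 2 n + 1)) ^ 2
            * (Nat.log 2 n + 1) ^ 5)))) := by
  obtain ⟨d, hd, c, hc⟩ := langT_time
  refine ⟨d * 2 ^ 31, langT d, langT_inNP d, ⟨c, hc⟩, langT_mono d, fun n s U hU0 => ?_⟩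
  have hUn : U.card ≤ n := (Finset.card_le_univ U).trans (by simp)
  have hUp : 1 ≤ U.card := hU0.card_pos
  have hn1 : 1 ≤ n := hUp.trans hUn
  have hX1 : 2 ≤ d * 2 ^ 31 * (s + (Nat.log 2 n + 1)) ^ 2 * (Nat.log 2 n + 1) ^ 5 := by
    have h1 : 1 ≤ (s + (Nat.log 2 n + 1)) ^ 2 := Nat.one_le_pow _ _ (by omega)
    have h2 : 1 ≤ (Nat.log 2 n + 1) ^ 5 := Nat.one_le_pow _ _ (by omega)
    calc 2 ≤ d * 2 ^ 31 * 1 * 1 := by omega
      _ ≤ _ := Nat.mul_le_mul (Nat.mul_le_mul_left _ h1) h2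
  have hX : d * sD (lgc n) (sj (2 * s + lgc n + 2) (lgc n)) ≤
      d * 2 ^ 31 * (s + (Nat.log 2 n + 1)) ^ 2 * (Nat.log 2 n + 1) ^ 5 := by
    refine (Nat.mul_le_mul_left d (sD_bound2 n s hn1)).trans (le_of_eq ?_)
    ring
  refine ⟨hardAvg_loc hd _ U hU0 hX1 hX fun j hj hc1 hc2 r' hrr hr0 hr =>
      exists_restriction d n j hj hc1 hc2 (two_le_lgc hn1) (lt_two_pow_lgc n).le U r'
        hrr hr0 hr, fun hU => ?_⟩
  have hn : 2 ≤ n := hX1.trans (hU.trans hUn)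
  exact (hardSet_loc hn hd _ U hU fun j hj hc1 hc2 r' hrr hr0 hr =>
    exists_restriction d n j hj hc1 hc2 (two_le_lgc (by omega)) (lt_two_pow_lgc n).le U r'
      hrr hr0 hr).few fun D hD => by
    obtain ⟨F, hF, h1⟩ := ival_lits D hD
    exact ⟨F, (realClass (2 * 2 ^ s)).mono _ F hF, h1⟩

end Pool.Agent.LocT
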