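import Pool.Agent.LocS.Num
import Pool.Agent.RC.LocR
import Pool.Agent.RC.IvalLits
import Pool.Agent.GB24.HiddenFew

set_option autoImplicit false

/-!
# One block and the numbers: hidden zeros, real gates, all sizes
-/

namespace Pool.Agent.LocT

open Finset Pool.Agent.NegLim Pool.Agent.NegLim.Lang Pool.Agent.NegLim.NPL Pool.Agent.NTR
  Pool.Agent.NTR.Gen Pool.Agent.NWE Pool.Agent.GB24 Pool.Agent.GB24.Loc
  Pool.Agent.NTN Pool.Agent.PolyTime Pool.Agent.LocE Pool.Agent.LocS Pool.Agent.RC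
open scoped BigOperators

open Classical in
/-- **One block.** The polynomial function is not a disjunction of few functions decided by small
monotone real circuits. -/
theorem one_block (n s S l j : ℕ) (hn : 2 ≤ n) (hl : l = lgc n) (hjs : j = sj s l)
    (hU : sD l j ≤ n) (Gs : List ((Fin (sN l (2 ^ j)) × ZMod (sq l (2 ^ j)) → Bool) → Bool))
    (hlen : Gs.length * (S + 1) ≤ 2 ^ s + n) (hmem : ∀ G ∈ Gs, (realClass S).mem _ G)
    (h : ∀ u, polyFn (sq l (2 ^ j)) (2 ^ j) (sN l (2 ^ j)) u = true ↔ ∃ G ∈ Gs, G u = true) :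
    False := by
  obtain ⟨hj, hc1, hc2, hB⟩ := numbers n 1 s (by omega) le_rfl (by
    rw [one_mul, ← hl, ← hjs]
    exact hU)
  have herr := error_le n s (by omega) hc2
  have hl2 : 2 ≤ lgc n := two_le_lgc (by omega)
  have hnl : n < 2 ^ lgc n := lt_two_pow_lgc n
  rw [← hl, ← hjs] at hj hc1 hc2 hB herr
  rw [← hl] at hl2 hnl
  have hw : 1 ≤ 2 ^ j := Nat.one_le_two_pow
  have hq1 : 512 * (2 ^ j * (l + 1) ^ 2) < sq l (2 ^ j) := by
    have := (sq_spec l j).2.2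
    omega
  have hl1 : 2 ^ j * 1 ≤ 2 ^ j * (l + 1) ^ 2 :=
    Nat.mul_le_mul_left _ (Nat.one_le_pow _ _ (by omega))
  -- the block
  obtain ⟨M, hM⟩ : ∃ M, M + 1 = 2 * (2 ^ j * (l + 1) ^ 2) :=
    ⟨2 * (2 ^ j * (l + 1) ^ 2) - 1, by omega⟩
  have hNw : 2 * 2 ^ j ≤ sN l (2 ^ j) := by
    unfold sN
    calc 2 * 2 ^ j ≤ 4 * 2 ^ j := by omega
      _ = 4 * 2 ^ j * 1 := by ring
      _ ≤ 4 * 2 ^ j * l := Nat.mul_le_mul_left _ (by omega)
  have hNq : sN l (2 ^ j) ≤ sq l (2 ^ j) := by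
    have h1 : 4 * 2 ^ j * l ≤ 512 * (2 ^ j * (l + 1) ^ 2) := by
      calc 4 * 2 ^ j * l ≤ 512 * 2 ^ j * (l + 1) ^ 2 := by
            apply Nat.mul_le_mul
            · omega
            · nlinarith
        _ = 512 * (2 ^ j * (l + 1) ^ 2) := by ring
    exact h1.trans hq1.le
  have hMq : 256 * (M + 1) ≤ sq l (2 ^ j) := by
    rw [hM]
    omega
  have hL : 2 * 2 ^ j < 2 ^ (l + 1) := by
    have h1 : 2 ^ j < 2 ^ l := Nat.pow_lt_pow_right (by norm_num) hj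
    rw [pow_succ]
    omega
  have hk : (sN l (2 ^ j) * sq l (2 ^ j) + 1) ^ (2 * 2 ^ j) * 4 ^ (2 ^ j)
      ≤ 4 ^ (2 ^ j * (l + 1)) := by
    have h1 : sN l (2 ^ j) * sq l (2 ^ j) + 1 ≤ 2 ^ l := by
      have h2 : sN l (2 ^ j) * sq l (2 ^ j) ≤ n := hB
      omega
    calc (sN l (2 ^ j) * sq l (2 ^ j) + 1) ^ (2 * 2 ^ j) * 4 ^ (2 ^ j)
        ≤ (2 ^ l) ^ (2 * 2 ^ j) * 4 ^ (2 ^ j) :=
          Nat.mul_le_mul_right _ (Nat.pow_le_pow_left h1 _)
      _ = 4 ^ (2 ^ j * l) * 4 ^ (2 ^ j) := by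
          congr 1
          rw [← pow_mul, show l * (2 * 2 ^ j) = 2 * (2 ^ j * l) from by ring, pow_mul]
          norm_num
      _ = 4 ^ (2 ^ j * (l + 1)) := by
          rw [← pow_add, mul_add, mul_one]
  have hLk : 2 * ((l + 1) * (2 ^ j * (l + 1))) ≤ M + 1 := by
    rw [hM]
    apply le_of_eq
    ring
  obtain ⟨D₀, D₁, h0, h0s, h0z, h1, h1s, h1z, hD⟩ :=
    poly_blockR (sN l (2 ^ j)) (2 ^ j) M (l + 1) (2 ^ j * (l + 1)) (sq l (2 ^ j)) (2 ^ s + n)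
      hw hNw hNq hMq hL hk hLk
  -- the disjunction
  obtain ⟨s', D, F, g1, g2, g3, g4, g5⟩ := RC.or_list (S := S) Gs fun G hG => by
    obtain ⟨C, out, ψ, h0, hS, hF⟩ := hmem G hG
    exact RC.rfun_of_circuit C out ψ h0 hS hF
  have hg : RFun (2 ^ s + n) fun z => thr 1 (F z) :=
    ⟨s', g1.trans hlen, D, g2, F, g3, thr 1, fun z => rfl⟩
  have hFf : ∀ z, thr 1 (F z) = polyFn (sq l (2 ^ j)) (2 ^ j) (sN l (2 ^ j)) z := by
    intro z
    rw [Bool.eq_iff_iff, thr_iff, h z, ← g5 z]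
    rcases g4 z with h | h <;> rw [h] <;> norm_num
  have h2 := hD _ hg
  have h3 : ∑ u with thr 1 (F u) = true, D₁ u = 1 := by
    refine Eq.trans ?_ h1s
    refine Finset.sum_subset (Finset.filter_subset _ _) fun u _ hu => ?_
    by_contra h4
    apply hu
    rw [Finset.mem_filter, hFf]
    exact ⟨mem_univ _, h1z u h4⟩
  have h4 : ∑ u with thr 1 (F u) = true, D₀ u = 0 := by
    refine Finset.sum_eq_zero fun u hu => ?_
    by_contra h5
    rw [Finset.mem_filter, hFf] at hu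
    rw [h0z u h5] at hu
    exact absurd hu.2 (by simp)
  rw [h3, h4, zero_add] at h2
  have hn0 : (2 : ℝ) ≤ n := by exact_mod_cast hn
  nlinarith

/-- The size of a list of functions on known literals. -/
lemma list_size (n s t B : ℕ) (hB : B ≤ n) (ht : t ≤ B * 2 ^ s) :
    t * (2 * 2 ^ s + 1) ≤ 2 ^ (2 * s + lgc n + 2) + n := by
  have hnl : n < 2 ^ lgc n := lt_two_pow_lgc n
  have h1 : 1 ≤ 2 ^ s := Nat.one_le_two_pow
  calc t * (2 * 2 ^ s + 1) ≤ (2 ^ lgc n * 2 ^ s) * (4 * 2 ^ s) := by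
        apply Nat.mul_le_mul
        · exact ht.trans (Nat.mul_le_mul_right _ (hB.trans hnl.le))
        · omega
    _ = 2 ^ (2 * s + lgc n + 2) := by
        rw [pow_add, pow_add, show 2 * s = s + s from two_mul s, pow_add]
        ring
    _ ≤ _ := Nat.le_add_right _ _

/-- The number of variables per block. -/
lemma sD_bound2 (n s : ℕ) (hn : 1 ≤ n) :
    sD (lgc n) (sj (2 * s + lgc n + 2) (lgc n))
      ≤ 2 ^ 31 * (s + (Nat.log 2 n + 1)) ^ 2 * (Nat.log 2 n + 1) ^ 5 := by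
  refine (sD_bound n _ hn).trans ?_
  obtain ⟨t, ht⟩ : ∃ t, t = Nat.log 2 n + 1 := ⟨_, rfl⟩
  have hlt : lgc n ≤ t + 1 := by
    have := lgc_le hn
    omega
  have ht1 : 1 ≤ t := by omega
  rw [← ht]
  have h1 : 2 * s + lgc n + 2 + t ≤ 5 * (s + t) := by omega
  calc 2 ^ 26 * ((2 * s + lgc n + 2 + t) ^ 2 * t ^ 5)
      ≤ 2 ^ 26 * ((5 * (s + t)) ^ 2 * t ^ 5) :=
        Nat.mul_le_mul_left _ (Nat.mul_le_mul_right _ (Nat.pow_le_pow_left h1 2))
    _ = (2 ^ 26 * 25) * (s + t) ^ 2 * t ^ 5 := by ring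
    _ ≤ 2 ^ 31 * (s + t) ^ 2 * t ^ 5 :=
        Nat.mul_le_mul_right _ (Nat.mul_le_mul_right _ (by norm_num))

/-- **Hidden zeros.** -/
theorem hardSet_loc {n s d : ℕ} (hn : 2 ≤ n) (hd : 1 ≤ d) (f : (Fin n → Bool) → Prop)
    (U : Finset (Fin n))
    (hU : d * 2 ^ 31 * (s + (Nat.log 2 n + 1)) ^ 2 * (Nat.log 2 n + 1) ^ 5 ≤ U.card)
    (hφ : ∀ j, j < lgc n → (2 * 2 ^ j + 1) * lgc n ≤ n / d → sq (lgc n) (2 ^ j) ≤ n →
      ∀ r', r' ≤ sr n (lgc n) (2 ^ j) → 0 < sr n (lgc n) (2 ^ j) →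
      r' * (4 * sB (lgc n) (2 ^ j)) ≤ U.card →
      ∃ φ : Fin n → (Fin r' × (Fin (sN (lgc n) (2 ^ j)) × ZMod (sq (lgc n) (2 ^ j)))) ⊕ Bool,
        (∀ v, v ∉ U → ∃ c, φ v = .inr c) ∧
        ∀ x : Fin r' × (Fin (sN (lgc n) (2 ^ j)) × ZMod (sq (lgc n) (2 ^ j))) → Bool,
          f (fun v => Sum.elim x id (φ v)) ↔
            ∀ k, polyFn (sq (lgc n) (2 ^ j)) (2 ^ j) (sN (lgc n) (2 ^ j))
              (fun e => x (k, e)) = true) :
    HardSet f U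
      (fun D => ∃ (C : ICircuit (Fin n)) (o : Wire (Fin n)),
        C.size ≤ 2 ^ s ∧ ∀ p, D p = decide (0 < (C.range p o).1))
      (U.card + 1) ((2 ^ s) ^ (U.card / (d * 2 ^ 31 * (s + (Nat.log 2 n + 1)) ^ 2
        * (Nat.log 2 n + 1) ^ 5))) := by
  classical
  have hUn : U.card ≤ n := (Finset.card_le_univ U).trans (by simp)
  obtain ⟨D, hD⟩ : ∃ D, D = sD (lgc n) (sj (2 * s + lgc n + 2) (lgc n)) := ⟨_, rfl⟩
  have hDb : d * D ≤ d * 2 ^ 31 * (s + (Nat.log 2 n + 1)) ^ 2 * (Nat.log 2 n + 1) ^ 5 := by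
    have h1 := Nat.mul_le_mul_left d (sD_bound2 n s (by omega))
    rw [← hD] at h1
    refine h1.trans (le_of_eq ?_)
    ring
  have hDpos : 0 < D := by
    rw [hD]
    unfold sD sB sN
    have h1 := (sq_spec (lgc n) (sj (2 * s + lgc n + 2) (lgc n))).1.pos
    have h2 := two_le_lgc (n := n) (by omega)
    positivity
  have hdD : 0 < d * D := Nat.mul_pos hd hDpos
  -- it is enough to have the bound with `d * D`
  suffices h : HardSet f U
      (fun D => ∃ (C : ICircuit (Fin n)) (o : Wire (Fin n)),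
        C.size ≤ 2 ^ s ∧ ∀ p, D p = decide (0 < (C.range p o).1))
      (U.card + 1) ((2 ^ s) ^ (U.card / (d * D))) by
    obtain ⟨ρ, M, h1, h2, h3⟩ := h
    refine ⟨ρ, M, h1, h2, fun Y _ w Dv hDv hs => (Nat.mul_le_mul_right _ ?_).trans
      (h3 Y w Dv hDv hs)⟩
    exact Nat.pow_le_pow_right (Nat.one_le_two_pow) (Nat.div_le_div_left hDb hdD)
  have hUD : d * D ≤ U.card := hDb.trans hU
  obtain ⟨s', hs'⟩ : ∃ s', s' = 2 * s + lgc n + 2 := ⟨_, rfl⟩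
  rw [← hs'] at hD
  obtain ⟨hj, hc1, hc2, hB⟩ := numbers n d s' (by omega) hd (by rw [← hD]; exact hUD.trans hUn)
  obtain ⟨r', hr'⟩ : ∃ r', r' = U.card / (d * D) := ⟨_, rfl⟩
  have hrD : r' * D ≤ U.card := by
    calc r' * D ≤ r' * (d * D) := Nat.mul_le_mul_left _ (Nat.le_mul_of_pos_left _ hd)
      _ ≤ U.card := by
          rw [hr']
          exact Nat.div_mul_le_self _ _
  have hl2 : 2 ≤ lgc n := two_le_lgc (by omega)
  have hBpos : 0 < sB (lgc n) (2 ^ sj s' (lgc n)) := by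
    unfold sB sN
    have := (sq_spec (lgc n) (sj s' (lgc n))).1.pos
    positivity
  have hrr : r' ≤ sr n (lgc n) (2 ^ sj s' (lgc n)) := by
    unfold sr
    have hpos : 0 < 4 * (lgc n) ^ 2 * sB (lgc n) (2 ^ sj s' (lgc n)) := by positivity
    rw [Nat.le_div_iff_mul_le hpos]
    have h1 : r' * D ≤ n := hrD.trans hUn
    rw [hD] at h1
    exact h1
  have hB4 : 4 * sB (lgc n) (2 ^ sj s' (lgc n)) ≤ D := by
    rw [hD]
    unfold sD
    have h1 : 1 ≤ lgc n ^ 2 := Nat.one_le_pow _ _ (by omega)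
    calc 4 * sB (lgc n) (2 ^ sj s' (lgc n)) = 4 * 1 * sB (lgc n) (2 ^ sj s' (lgc n)) := by ring
      _ ≤ 4 * lgc n ^ 2 * sB (lgc n) (2 ^ sj s' (lgc n)) :=
        Nat.mul_le_mul_right _ (Nat.mul_le_mul_left _ h1)
  have hr4 : r' * (4 * sB (lgc n) (2 ^ sj s' (lgc n))) ≤ U.card :=
    (Nat.mul_le_mul_left _ hB4).trans hrD
  have hr1 : 1 ≤ r' := by
    rw [hr']
    exact (Nat.one_le_div_iff hdD).mpr hUD
  rw [← hr']
  have hcardB : Fintype.card (Fin (sN (lgc n) (2 ^ sj s' (lgc n))) ×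
      ZMod (sq (lgc n) (2 ^ sj s' (lgc n)))) = sB (lgc n) (2 ^ sj s' (lgc n)) := by
    rw [Fintype.card_prod, Fintype.card_fin, ZMod.card]
    rfl
  have hne : Nonempty (Fin (sN (lgc n) (2 ^ sj s' (lgc n))) ×
      ZMod (sq (lgc n) (2 ^ sj s' (lgc n)))) := by
    rw [← Fintype.card_pos_iff, hcardB]
    exact hBpos
  refine hardSet_general (realClass (2 * 2 ^ s))
    (fun u => polyFn (sq (lgc n) (2 ^ sj s' (lgc n))) (2 ^ sj s' (lgc n))
      (sN (lgc n) (2 ^ sj s' (lgc n))) u = true)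
    (fun u v huv hu => Bool.le_iff_imp.mp (polyFn_mono _ _ _ huv) hu)
    (fun Gs h1 h2 h3 => ?_) f U (hφ _ hj hc1 hc2 r' hrr (by omega) hr4) ?_ _ fun Dv h => ival_lits Dv h
  · refine one_block n s' (2 * 2 ^ s) _ _ hn rfl rfl ?_ Gs ?_ h2 h3
    · rw [← hD]
      exact (Nat.le_mul_of_pos_left _ hd).trans (hUD.trans hUn)
    · rw [hcardB] at h1
      refine (list_size n s _ _ hB h1).trans (le_of_eq ?_)
      rw [hs']
  · rw [hcardB]
    have h1 : r' * sB (lgc n) (2 ^ sj s' (lgc n)) ≤ r' * (4 * sB (lgc n) (2 ^ sj s' (lgc n))) :=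
      Nat.mul_le_mul_left _ (by omega)
    omega

end Pool.Agent.LocT
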