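import Pool.Agent.GB24.HiddenBlindEnds
import Pool.Agent.RC.HiddenReal

/-!
# Nondeterministic circuits which do not see the zeros in a small set

Let `f` be a monotone function, computed by circuits `C y` with at most `S` gates (`y` a guess), at
most `A` of which accept an input. For every set `U` of variables there are such circuits with at most
`S + |U|` gates, at most `2 ^ |U| A` of which accept an input, and every `x` with `f x = 1` is accepted
when all zeros of `x` in `U` are hidden. Both for AND, OR, NOT gates with Kleene's three-valued logic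
and for real gates with interval arithmetic.
-/

set_option autoImplicit false

namespace Pool.Agent.LocT

open Finset Pool.Agent.NegLim Pool.Agent.NWE Pool.Agent.GB24.Loc Pool.Agent.RC

section

variable {V : Type} [DecidableEq V]

/-- The variables of `U` get the value `1` in `T` and the value `0` otherwise. -/
def cut (U T : Finset V) (v : V) : Option Bool := if v ∈ U then some (decide (v ∈ T)) else none

/-- The input `x` with the ones `T` in `U`. -/
def reset (U T : Finset V) (x : V → Bool) (v : V) : Bool := if v ∈ U then decide (v ∈ T) else x v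

lemma setP_cut_some (U T : Finset V) (x : V → Bool) :
    setP (cut U T) (fun v => some (x v)) = fun v => some (reset U T x v) := by
  funext v
  by_cases hv : v ∈ U
  · simp only [setP, cut, reset, if_pos hv]
  · simp only [setP, cut, reset, if_neg hv]

lemma setP_cut_hide (U T : Finset V) (x : V → Bool) :
    setP (cut U T) (hide U ∅ x) = fun v => some (reset U T x v) := by
  funext v
  by_cases hv : v ∈ U
  · simp only [setP, cut, reset, if_pos hv]
  · simp only [setP, cut, reset, if_neg hv, hide, hv, false_and, if_false]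

lemma reset_le {U T : Finset V} {x : V → Bool} (hT : ∀ v ∈ T, x v = true) :
    reset U T x ≤ x := by
  intro v
  unfold reset
  by_cases hv : v ∈ U
  · rw [if_pos hv]
    by_cases ht : v ∈ T
    · rw [hT v ht]
      exact le_top
    · simp [ht]
  · rw [if_neg hv]

lemma reset_self (U : Finset V) (x : V → Bool) :
    reset U (U.filter fun v => x v = true) x = x := by
  funext v
  unfold reset
  by_cases hv : v ∈ U
  · rw [if_pos hv]
    cases hx : x v <;> simp [hv, hx]
  · rw [if_neg hv]

/-- **The converse, for any devices**: `val` the acceptance of an input, `acc` that of a partly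
hidden input. -/
theorem conv_general {K : Type} (size : K → ℕ) (val : K → (V → Bool) → Prop)
    (acc : K → (V → Option Bool) → Prop)
    (htot : ∀ D x, acc D (fun v => some (x v)) ↔ val D x)
    (hand : ∀ (D : K) (τ : V → Option Bool) (T : Finset V), ∃ D' : K,
      size D' ≤ size D + T.card ∧
      (∀ x, val D' x ↔ (∀ v ∈ T, x v = true) ∧ acc D (setP τ fun v => some (x v))) ∧
      ∀ p : V → Option Bool, (∀ v ∈ T, p v = some true) → acc D (setP τ p) → acc D' p)
    (f : (V → Bool) → Bool) (hf : Monotone f) (U : Finset V) {Y : Type} [Fintype Y] {S A : ℕ}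
    (C : Y → K) (hS : ∀ y, size (C y) ≤ S)
    (hC : ∀ x, f x = true ↔ ∃ y, val (C y) x)
    (hA : ∀ x, {y | val (C y) x}.ncard ≤ A) :
    ∃ (Y' : Type) (_ : Fintype Y') (D : Y' → K),
      (∀ y, size (D y) ≤ S + U.card) ∧
      (∀ x, f x = true ↔ ∃ y, val (D y) x) ∧
      (∀ x, {y | val (D y) x}.ncard ≤ 2 ^ U.card * A) ∧
      ∀ x, f x = true → ∃ y, acc (D y) (hide U ∅ x) := by
  classical
  choose E h1 h2 h3 using hand
  set D : {T // T ∈ U.powerset} × Y → K := fun t => E (C t.2) (cut U t.1.1) t.1.1 with hD
  have hval : ∀ t x, val (D t) x ↔ (∀ v ∈ t.1.1, x v = true) ∧ val (C t.2) (reset U t.1.1 x) := by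
    intro t x
    rw [hD, h2, setP_cut_some, htot]
  have hone : ∀ x : V → Bool, (U.filter fun v => x v = true) ∈ U.powerset := fun x =>
    Finset.mem_powerset.2 (Finset.filter_subset _ _)
  have hin : ∀ x : V → Bool, ∀ v ∈ U.filter fun v => x v = true, x v = true := fun x v hv =>
    (Finset.mem_filter.1 hv).2
  refine ⟨{T // T ∈ U.powerset} × Y, inferInstance, D, fun t => ?_, fun x => ⟨fun hx => ?_, ?_⟩,
    fun x => ?_, fun x hx => ?_⟩
  · have h4 : t.1.1.card ≤ U.card := Finset.card_le_card (Finset.mem_powerset.1 t.1.2)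
    have h5 := h1 (C t.2) (cut U t.1.1) t.1.1
    have h6 := hS t.2
    show size (E _ _ _) ≤ _
    omega
  · obtain ⟨y, hy⟩ := (hC x).1 hx
    refine ⟨(⟨_, hone x⟩, y), (hval _ x).2 ⟨hin x, ?_⟩⟩
    show val (C y) (reset U (U.filter fun v => x v = true) x)
    rw [reset_self]
    exact hy
  · rintro ⟨t, ht⟩
    obtain ⟨h4, h5⟩ := (hval t x).1 ht
    have h6 := hf (reset_le (U := U) h4)
    rw [(hC _).2 ⟨_, h5⟩] at h6
    exact top_le_iff.1 h6
  · have h4 : {t | val (D t) x} ⊆
        ↑((univ : Finset {T // T ∈ U.powerset}).biUnion fun T =>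
          (univ.filter fun y : Y => val (C y) (reset U T.1 x)).image fun y => (T, y)) := by
      rintro ⟨T, y⟩ hy
      rw [Finset.mem_coe, Finset.mem_biUnion]
      exact ⟨T, Finset.mem_univ _, Finset.mem_image.2
        ⟨y, Finset.mem_filter.2 ⟨Finset.mem_univ _, ((hval _ x).1 hy).2⟩, rfl⟩⟩
    refine (Set.ncard_le_ncard h4 (Finset.finite_toSet _)).trans ?_
    rw [Set.ncard_coe_finset]
    refine (Finset.card_biUnion_le_card_mul _ _ A fun T _ => Finset.card_image_le.trans ?_).trans ?_
    · have h5 := hA (reset U T.1 x)
      rw [Set.ncard_eq_toFinset_card'] at h5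
      refine le_trans (le_of_eq ?_) h5
      congr 1
      ext y
      simp
    · rw [Finset.card_univ, Fintype.card_coe, Finset.card_powerset]
  · obtain ⟨y, hy⟩ := (hC x).1 hx
    refine ⟨(⟨_, hone x⟩, y), h3 _ _ _ _ (fun v hv => ?_) ?_⟩
    · unfold hide
      rw [hin x v hv, if_neg (by simp)]
    · rw [setP_cut_hide, htot]
      show val (C y) (reset U (U.filter fun v => x v = true) x)
      rw [reset_self]
      exact hy

/-! ### AND, OR, NOT gates -/

/-- **AND, OR, NOT gates, Kleene's logic.** -/
theorem conv_kleene (f : (V → Bool) → Bool) (hf : Monotone f) (U : Finset V) {Y : Type} [Fintype Y]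
    {S A : ℕ} (C : Y → Circuit V) (a : Y → Wire V) (hS : ∀ y, (C y).size ≤ S)
    (hC : ∀ x, f x = true ↔ ∃ y, (C y).val x (a y) = true)
    (hA : ∀ x, {y | (C y).val x (a y) = true}.ncard ≤ A) :
    ∃ (Y' : Type) (_ : Fintype Y') (D : Y' → Circuit V) (b : Y' → Wire V),
      (∀ y, (D y).size ≤ S + U.card) ∧
      (∀ x, f x = true ↔ ∃ y, (D y).val x (b y) = true) ∧
      (∀ x, {y | (D y).val x (b y) = true}.ncard ≤ 2 ^ U.card * A) ∧
      ∀ x, f x = true → ∃ y, kleene (D y) (hide U ∅ x) (b y) = some true := by
  have htot : ∀ (D : Circuit V × Wire V) (x : V → Bool),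
      kleene D.1 (fun v => some (x v)) D.2 = some true ↔ D.1.val x D.2 = true := by
    intro D x
    rw [kleene_total]
    simp
  obtain ⟨Y', hY', D, h1, h2, h3, h4⟩ := conv_general (K := Circuit V × Wire V)
    (fun D => D.1.size) (fun D x => D.1.val x D.2 = true)
    (fun D p => kleene D.1 p D.2 = some true) htot (fun D τ T => by
      obtain ⟨D', b, h1, h2, h3⟩ := exists_and (List.map (setG τ) D.1) (setW τ D.2) T
      refine ⟨(D', b), ?_, fun x => ?_, fun p hp hp2 => h3 p hp (by rw [kleene_set]; exact hp2)⟩
      · show D'.size ≤ _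
        rw [h1]
        unfold Circuit.size
        simp
      · show D'.val x b = true ↔ _
        rw [h2 x, ← kleene_set τ (fun v => some (x v)) D.1 D.2, kleene_total]
        simp) f hf U (fun y => (C y, a y)) hS hC hA
  exact ⟨Y', hY', fun y => (D y).1, fun y => (D y).2, h1, h2, h3, h4⟩

/-! ### Real gates -/

/-- Substitute constants for the variables `v` with `τ v ≠ none`. -/
noncomputable def setI (τ : V → Option Bool) (g : IGate V) : IGate V :=
  ⟨g.φ, g.σ, g.τ, setW τ g.a, setW τ g.b⟩

omit [DecidableEq V] in
lemma wireI_set (τ : V → Option Bool) (p : V → Option Bool) (l : List (ℝ × ℝ)) (a : Wire V) :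
    wireI p l (setW τ a) = wireI (setP τ p) l a := by
  cases a with
  | var v =>
    simp only [setW, wireI, setP]
    cases τ v <;> rfl
  | const b => rfl
  | gate j => rfl

omit [DecidableEq V] in
lemma valsI_set (τ : V → Option Bool) (p : V → Option Bool) (C : ICircuit V)
    (l : List (ℝ × ℝ)) : valsI p (C.map (setI τ)) l = valsI (setP τ p) C l := by
  induction C generalizing l with
  | nil => rfl
  | cons g C ih =>
    simp only [List.map_cons, valsI, IGate.range, setI, wireI_set]
    exact ih _

omit [DecidableEq V] in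
lemma range_set (τ : V → Option Bool) (p : V → Option Bool) (C : ICircuit V) (a : Wire V) :
    ICircuit.range (C.map (setI τ)) p (setW τ a) = C.range (setP τ p) a := by
  unfold ICircuit.range
  rw [valsI_set, wireI_set]

omit [DecidableEq V] in
lemma valsI_append (p : V → Option Bool) (C D : ICircuit V) (l : List (ℝ × ℝ)) :
    valsI p (C ++ D) l = valsI p D (valsI p C l) := by
  induction C generalizing l with
  | nil => rfl
  | cons g C ih => simp only [List.cons_append, valsI]; exact ih _

omit [DecidableEq V] in
lemma wireI_safe (p : V → Option Bool) (l l' : List (ℝ × ℝ)) (a : Wire V) :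
    wireI p (l ++ l') (safeW l.length a) = wireI p l a := by
  cases a with
  | var v => rfl
  | const b => rfl
  | gate j =>
    by_cases h : j < l.length
    · simp only [safeW, if_pos h, wireI]
      rw [List.getD_append _ _ _ _ h]
    · simp only [safeW, if_neg h, wireI]
      rw [List.getD_eq_default _ _ (by omega)]
      simp

/-- The gate `a`, unless the second variable is less than one. -/
noncomputable def andR : ℝ × ℝ →o ℝ where
  toFun q := if 1 ≤ q.2 then q.1 else min q.1 0
  monotone' := by
    intro a b hab
    have h1 := hab.1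
    have h2 := hab.2
    by_cases ha : 1 ≤ a.2
    · have hb : 1 ≤ b.2 := ha.trans h2
      simp only [if_pos ha, if_pos hb]
      exact h1
    · simp only [if_neg ha]
      split_ifs
      · exact (min_le_left _ _).trans h1
      · exact min_le_min_right _ h1

/-- One more gate: the lower end. -/
lemma range_andVar (i : V) (D : ICircuit V) (a : Wire V) (p : V → Option Bool) :
    (ICircuit.range (D ++ [⟨andR, true, true, safeW D.length a, .var i⟩]) p
      (.gate D.length)).1 = if p i = some true then (D.range p a).1 else min (D.range p a).1 0 := by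
  unfold ICircuit.range
  rw [valsI_append]
  have hl : (valsI p D []).length = D.length := by
    rw [valsI_length]
    simp
  have h1 := wireI_safe p (valsI p D []) [] a
  rw [hl, List.append_nil] at h1
  show (List.getD (valsI p D [] ++ [_]) D.length (0, 0)).1 = _
  rw [List.getD_append_right _ _ _ _ (by rw [hl]), hl, Nat.sub_self]
  simp only [List.getD_cons_zero, IGate.range, h1, sgnI, if_true]
  show (if 1 ≤ (wireI p (valsI p D []) (.var i)).1 then _ else _) = _
  rcases h : p i with _ | (_ | _)
  · simp [wireI, h]
  · simp [wireI, h]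
  · simp [wireI, h]

/-- The AND of a real circuit and variables. -/
lemma exists_andI (C : ICircuit V) (a : Wire V) (T : Finset V) :
    ∃ (D : ICircuit V) (b : Wire V), D.size = C.size + T.card ∧
      ∀ p : V → Option Bool, (0 < (D.range p b).1 ↔
        (∀ v ∈ T, p v = some true) ∧ 0 < (C.range p a).1) := by
  induction T using Finset.induction_on with
  | empty => exact ⟨C, a, by simp, fun x => by simp⟩
  | insert i T hi ih =>
    obtain ⟨D, b, h1, h2⟩ := ih
    refine ⟨D ++ [⟨andR, true, true, safeW D.length b, .var i⟩], .gate D.length, ?_, fun p => ?_⟩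
    · rw [Finset.card_insert_of_notMem hi, ← Nat.add_assoc, ← h1]
      unfold ICircuit.size
      simp
    · rw [range_andVar]
      constructor
      · intro h
        by_cases hp : p i = some true
        · rw [if_pos hp] at h
          obtain ⟨h3, h4⟩ := (h2 p).1 h
          refine ⟨fun v hv => ?_, h4⟩
          rcases Finset.mem_insert.1 hv with rfl | hv
          · exact hp
          · exact h3 v hv
        · rw [if_neg hp] at h
          exact absurd h (not_lt.2 (min_le_right _ _))
      · rintro ⟨h3, h4⟩
        rw [if_pos (h3 i (Finset.mem_insert_self _ _))]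
        exact (h2 p).2 ⟨fun v hv => h3 v (Finset.mem_insert_of_mem hv), h4⟩

/-- **Real gates, interval arithmetic.** -/
theorem conv_ival (f : (V → Bool) → Bool) (hf : Monotone f) (U : Finset V) {Y : Type} [Fintype Y]
    {S A : ℕ} (C : Y → ICircuit V) (a : Y → Wire V) (hS : ∀ y, (C y).size ≤ S)
    (hC : ∀ x, f x = true ↔ ∃ y, 0 < (C y).val x (a y))
    (hA : ∀ x, {y | 0 < (C y).val x (a y)}.ncard ≤ A) :
    ∃ (Y' : Type) (_ : Fintype Y') (D : Y' → ICircuit V) (b : Y' → Wire V),
      (∀ y, (D y).size ≤ S + U.card) ∧
      (∀ x, f x = true ↔ ∃ y, 0 < (D y).val x (b y)) ∧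
      (∀ x, {y | 0 < (D y).val x (b y)}.ncard ≤ 2 ^ U.card * A) ∧
      ∀ x, f x = true → ∃ y, 0 < ((D y).range (hide U ∅ x) (b y)).1 := by
  have htot : ∀ (D : ICircuit V × Wire V) (x : V → Bool),
      0 < (D.1.range (fun v => some (x v)) D.2).1 ↔ 0 < D.1.val x D.2 := by
    intro D x
    rw [range_some]
  obtain ⟨Y', hY', D, h1, h2, h3, h4⟩ := conv_general (K := ICircuit V × Wire V)
    (fun D => D.1.size) (fun D x => 0 < D.1.val x D.2)
    (fun D p => 0 < (D.1.range p D.2).1) htot (fun D τ T => by
      obtain ⟨D', b, h1, h2⟩ := exists_andI (D.1.map (setI τ)) (setW τ D.2) T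
      refine ⟨(D', b), ?_, fun x => ?_, fun p hp hp2 => (h2 p).2 ⟨hp, by
        rw [range_set]; exact hp2⟩⟩
      · show D'.size ≤ _
        rw [h1]
        unfold ICircuit.size
        simp
      · show 0 < D'.val x b ↔ _
        rw [← htot (D', b) x]
        show 0 < (D'.range _ b).1 ↔ _
        rw [h2, range_set]
        simp) f hf U (fun y => (C y, a y)) hS hC hA
  exact ⟨Y', hY', fun y => (D y).1, fun y => (D y).2, h1, h2, h3, h4⟩

end

end Pool.Agent.LocT
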