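import Pool.Agent.LocT.Conv

/-!
# Nondeterministic circuits with guess bits which do not see the zeros in a small set

A nondeterministic circuit for a function `f` of the variables `V` is a circuit `C` on the variables `V`
and the guess bits `B`; it accepts `x` if `C (x, y) = 1` for some `y`. Let `f` be monotone. For every
set `U` of variables there is a nondeterministic circuit for `f` with `|U|` more gates and `|U|` more
guess bits, with at most `2 ^ |U|` times as many accepting guesses, which accepts every `x` with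
`f x = 1` when all zeros of `x` in `U` are hidden: it reads `x i AND z i` instead of `x i` for `i` in
`U`, `z` the new guess bits. Both for AND, OR, NOT gates with Kleene's three-valued logic and for real
gates with interval arithmetic.
-/

set_option autoImplicit false

namespace Pool.Agent.LocT

open Finset Pool.Agent.NegLim Pool.Agent.NWE Pool.Agent.GB24.Loc Pool.Agent.RC

section

variable {V B : Type} [DecidableEq V] {U : Finset V}

/-- The values which are read: `x i AND z i` for `i` in `U`. -/
def rdP (q : V ⊕ (B ⊕ {v // v ∈ U}) → Option Bool) : V ⊕ B → Option Bool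
  | .inl v => if h : v ∈ U then kAnd (q (.inl v)) (q (.inr (.inr ⟨v, h⟩))) else q (.inl v)
  | .inr b => q (.inr (.inl b))

/-- The wires. -/
noncomputable def rdW : Wire (V ⊕ B) → Wire (V ⊕ (B ⊕ {v // v ∈ U}))
  | .var (.inl v) => if h : v ∈ U then .gate (U.equivFin ⟨v, h⟩) else .var (.inl v)
  | .var (.inr b) => .var (.inr (.inl b))
  | .const c => .const c
  | .gate j => .gate (j + U.card)

lemma getD_ofFn_equiv {α : Type} (g : {v // v ∈ U} → α) (l : List α) (d : α)
    (z : {v // v ∈ U}) :
    ((List.ofFn fun i => g (U.equivFin.symm i)) ++ l).getD (U.equivFin z) d = g z := by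
  have h : ((U.equivFin z : Fin U.card) : ℕ) < (List.ofFn fun i => g (U.equivFin.symm i)).length := by
    rw [List.length_ofFn]
    exact (U.equivFin z).isLt
  rw [List.getD_append _ _ _ _ h, List.getD_eq_getElem _ _ h, List.getElem_ofFn]
  exact congrArg g (U.equivFin.symm_apply_apply z)

lemma getD_ofFn_shift {α : Type} (g : Fin U.card → α) (l : List α) (d : α) (j : ℕ) :
    (List.ofFn g ++ l).getD (j + U.card) d = l.getD j d := by
  rw [List.getD_append_right _ _ _ _ (by rw [List.length_ofFn]; omega), List.length_ofFn,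
    Nat.add_sub_cancel]

/-! ### The counting -/

/-- The input `x` with the ones of `x` and `z`. -/
def msk (x : V → Bool) (z : {v // v ∈ U} → Bool) (v : V) : Bool :=
  if h : v ∈ U then x v && z ⟨v, h⟩ else x v

lemma rdP_some (x : V → Bool) (y : B ⊕ {v // v ∈ U} → Bool) :
    rdP (fun i => some (Sum.elim x y i)) =
      fun i => some (Sum.elim (msk x fun z => y (.inr z)) (fun b => y (.inl b)) i) := by
  funext i
  rcases i with v | b
  · by_cases h : v ∈ U
    · simp only [rdP, dif_pos h, msk, Sum.elim_inl, Sum.elim_inr]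
      exact kAnd_some _ _
    · simp only [rdP, dif_neg h, msk, Sum.elim_inl]
  · rfl

lemma rdP_hide (x : V → Bool) (y : B → Bool) :
    rdP (Sum.elim (hide U ∅ x) fun g => some (Sum.elim y (fun z : {v // v ∈ U} => x z) g)) =
      fun i => some (Sum.elim x y i) := by
  funext i
  rcases i with v | b
  · by_cases h : v ∈ U
    · simp only [rdP, dif_pos h, Sum.elim_inl, Sum.elim_inr, hide, h, true_and, Finset.notMem_empty,
        not_false_eq_true]
      cases hx : x v <;> rfl
    · simp [rdP, Sum.elim_inl, hide, h]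
  · rfl

lemma msk_le (x : V → Bool) (z : {v // v ∈ U} → Bool) : msk x z ≤ x := by
  intro v
  unfold msk
  by_cases h : v ∈ U
  · rw [dif_pos h]
    cases x v
    · simp
    · exact le_top
  · rw [dif_neg h]

/-- **Counting.** -/
theorem guess_general [Fintype B] (f : (V → Bool) → Bool) (hf : Monotone f) {A : ℕ}
    (accC : (V ⊕ B → Option Bool) → Prop)
    (accD : (V ⊕ (B ⊕ {v // v ∈ U}) → Option Bool) → Prop) (h : ∀ q, accD q ↔ accC (rdP q))
    (hC : ∀ x, f x = true ↔ ∃ y : B → Bool, accC (fun i => some (Sum.elim x y i)))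
    (hA : ∀ x, {y : B → Bool | accC (fun i => some (Sum.elim x y i))}.ncard ≤ A) :
    (∀ x, f x = true ↔ ∃ y : B ⊕ {v // v ∈ U} → Bool, accD (fun i => some (Sum.elim x y i))) ∧
    (∀ x, {y : B ⊕ {v // v ∈ U} → Bool | accD (fun i => some (Sum.elim x y i))}.ncard
      ≤ 2 ^ U.card * A) ∧
    ∀ x, f x = true → ∃ y : B ⊕ {v // v ∈ U} → Bool,
      accD (Sum.elim (hide U ∅ x) fun g => some (y g)) := by
  classical
  have hself : ∀ x, f x = true → ∃ y : B ⊕ {v // v ∈ U} → Bool,
      accD (Sum.elim (hide U ∅ x) fun g => some (y g)) ∧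
      accD (fun i => some (Sum.elim x y i)) := by
    intro x hx
    obtain ⟨y, hy⟩ := (hC x).1 hx
    refine ⟨Sum.elim y fun z => x z, ?_, ?_⟩
    · rw [h, rdP_hide]
      exact hy
    · rw [h, rdP_some]
      have h1 : msk x (fun z : {v // v ∈ U} =>
          Sum.elim y (fun z : {v // v ∈ U} => x z) (.inr z)) = x := by
        funext v
        unfold msk
        by_cases hv : v ∈ U
        · rw [dif_pos hv]
          simp
        · rw [dif_neg hv]
      rw [h1]
      exact hy
  refine ⟨fun x => ⟨fun hx => ?_, ?_⟩, fun x => ?_, fun x hx => ?_⟩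
  · obtain ⟨y, -, hy⟩ := hself x hx
    exact ⟨y, hy⟩
  · rintro ⟨y, hy⟩
    rw [h, rdP_some] at hy
    have h2 := hf (msk_le x fun z => y (.inr z))
    rw [(hC _).2 ⟨_, hy⟩] at h2
    exact top_le_iff.1 h2
  · have h4 : {y : B ⊕ {v // v ∈ U} → Bool | accD (fun i => some (Sum.elim x y i))} ⊆
        ↑((univ : Finset ({v // v ∈ U} → Bool)).biUnion fun z =>
          (univ.filter fun y : B → Bool => accC (fun i => some (Sum.elim (msk x z) y i))).image
            fun y => Sum.elim y z) := by
      intro y hy
      rw [Finset.mem_coe, Finset.mem_biUnion]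
      refine ⟨fun z => y (.inr z), Finset.mem_univ _, Finset.mem_image.2
        ⟨fun b => y (.inl b), Finset.mem_filter.2 ⟨Finset.mem_univ _, ?_⟩, ?_⟩⟩
      · rw [Set.mem_setOf_eq, h, rdP_some] at hy
        exact hy
      · funext g
        rcases g with b | z <;> rfl
    refine (Set.ncard_le_ncard h4 (Finset.finite_toSet _)).trans ?_
    rw [Set.ncard_coe_finset]
    refine (Finset.card_biUnion_le_card_mul _ _ A fun z _ => Finset.card_image_le.trans ?_).trans ?_
    · have h5 := hA (msk x z)
      rw [Set.ncard_eq_toFinset_card'] at h5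
      refine le_trans (le_of_eq ?_) h5
      congr 1
      ext y
      simp
    · rw [Finset.card_univ, Fintype.card_fun, Fintype.card_coe, Fintype.card_bool]
  · obtain ⟨y, hy, -⟩ := hself x hx
    exact ⟨y, hy⟩

/-! ### AND, OR, NOT gates -/

/-- The gates. -/
noncomputable def rdG : Gate (V ⊕ B) → Gate (V ⊕ (B ⊕ {v // v ∈ U}))
  | .and a b => .and (rdW a) (rdW b)
  | .or a b => .or (rdW a) (rdW b)
  | .not a => .not (rdW a)

/-- The first `|U|` gates. -/
noncomputable def pre (V B : Type) (U : Finset V) : List (Gate (V ⊕ (B ⊕ {v // v ∈ U}))) :=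
  List.ofFn fun i => .and (.var (.inl (U.equivFin.symm i).1)) (.var (.inr (.inr (U.equivFin.symm i))))

omit [DecidableEq V] in
lemma valsK_pre_aux {ι α : Type} (q : ι → Option Bool) (a b : α → ι) (L : List α)
    (l : List (Option Bool)) :
    valsK q (L.map fun t => .and (.var (a t)) (.var (b t))) l =
      l ++ L.map fun t => kAnd (q (a t)) (q (b t)) := by
  induction L generalizing l with
  | nil => simp [valsK]
  | cons t L ih =>
    simp only [List.map_cons, valsK, gateK, wireK]
    rw [ih]
    simp

omit [DecidableEq V] in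
lemma valsK_pre (q : V ⊕ (B ⊕ {v // v ∈ U}) → Option Bool) :
    valsK q (pre V B U) [] = List.ofFn fun i =>
      (fun z : {v // v ∈ U} => kAnd (q (.inl z.1)) (q (.inr (.inr z)))) (U.equivFin.symm i) := by
  have h := valsK_pre_aux q (fun i : Fin U.card => Sum.inl (U.equivFin.symm i).1)
    (fun i => Sum.inr (Sum.inr (U.equivFin.symm i))) (List.ofFn fun i : Fin U.card => i) []
  rw [List.map_ofFn, List.map_ofFn, List.nil_append] at h
  exact h

lemma wireK_rd (q : V ⊕ (B ⊕ {v // v ∈ U}) → Option Bool) (l : List (Option Bool))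
    (a : Wire (V ⊕ B)) :
    wireK q (valsK q (pre V B U) [] ++ l) (rdW a) = wireK (rdP q) l a := by
  rw [valsK_pre]
  rcases a with (v | b) | c | j
  · by_cases h : v ∈ U
    · simp only [rdW, dif_pos h, wireK, rdP]
      exact getD_ofFn_equiv (fun z : {v // v ∈ U} => kAnd (q (.inl z.1)) (q (.inr (.inr z)))) l
        (some false) ⟨v, h⟩
    · simp only [rdW, dif_neg h, wireK, rdP]
  · rfl
  · rfl
  · exact getD_ofFn_shift _ l (some false) j

lemma valsK_rd (q : V ⊕ (B ⊕ {v // v ∈ U}) → Option Bool) (C : Circuit (V ⊕ B))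
    (l : List (Option Bool)) :
    valsK q (List.map rdG C) (valsK q (pre V B U) [] ++ l) =
      valsK q (pre V B U) [] ++ valsK (rdP q) C l := by
  induction C generalizing l with
  | nil => rfl
  | cons g C ih =>
    have hg : gateK q (valsK q (pre V B U) [] ++ l) (rdG g) = gateK (rdP q) l g := by
      cases g <;> simp only [rdG, gateK, wireK_rd]
    simp only [List.map_cons, valsK, hg]
    rw [List.append_assoc, ih]

lemma kleene_rd (q : V ⊕ (B ⊕ {v // v ∈ U}) → Option Bool) (C : Circuit (V ⊕ B))
    (a : Wire (V ⊕ B)) :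
    kleene (List.append (pre V B U) (List.map rdG C)) q (rdW a) = kleene C (rdP q) a := by
  unfold kleene
  rw [valsK_append]
  have h := valsK_rd q C []
  rw [List.append_nil] at h
  rw [h, wireK_rd]

/-- **Nondeterministic circuits with AND, OR, NOT gates, Kleene's logic.** -/
theorem conv_guess_kleene [Fintype B] (f : (V → Bool) → Bool) (hf : Monotone f) (U : Finset V)
    {A : ℕ} (C : Circuit (V ⊕ B)) (a : Wire (V ⊕ B))
    (hC : ∀ x, f x = true ↔ ∃ y : B → Bool, C.val (Sum.elim x y) a = true)
    (hA : ∀ x, {y : B → Bool | C.val (Sum.elim x y) a = true}.ncard ≤ A) :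
    ∃ (D : Circuit (V ⊕ (B ⊕ {v // v ∈ U}))) (b : Wire (V ⊕ (B ⊕ {v // v ∈ U}))),
      D.size = C.size + U.card ∧
      (∀ x, f x = true ↔ ∃ y, D.val (Sum.elim x y) b = true) ∧
      (∀ x, {y | D.val (Sum.elim x y) b = true}.ncard ≤ 2 ^ U.card * A) ∧
      ∀ x, f x = true → ∃ y : B ⊕ {v // v ∈ U} → Bool,
        kleene D (Sum.elim (hide U ∅ x) fun g => some (y g)) b = some true := by
  set D : Circuit (V ⊕ (B ⊕ {v // v ∈ U})) := List.append (pre V B U) (List.map rdG C) with hD
  have hv : ∀ {ι : Type} (E : Circuit ι) (w : Wire ι) (x : ι → Bool),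
      E.val x w = true ↔ kleene E (fun i => some (x i)) w = some true := by
    intro ι E w x
    rw [kleene_total]
    simp
  obtain ⟨h1, h2, h3⟩ := guess_general f hf (A := A)
    (fun p => kleene C p a = some true) (fun q => kleene D q (rdW a) = some true)
    (fun q => by rw [hD, kleene_rd]) (fun x => by simp only [← hv]; exact hC x)
    (fun x => by simp only [← hv]; exact hA x)
  refine ⟨D, rdW a, ?_, fun x => ?_, fun x => ?_, h3⟩
  · rw [hD]
    unfold Circuit.size pre
    show (_ ++ _ : List _).length = _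
    rw [List.length_append, List.length_ofFn, List.length_map]
    omega
  · simp only [hv]
    exact h1 x
  · simp only [hv]
    exact h2 x

/-! ### Real gates -/

/-- The gate `min`. -/
noncomputable def minR : ℝ × ℝ →o ℝ where
  toFun q := min q.1 q.2
  monotone' := fun _ _ h => min_le_min h.1 h.2

/-- The gates. -/
noncomputable def rdI (g : IGate (V ⊕ B)) : IGate (V ⊕ (B ⊕ {v // v ∈ U})) :=
  ⟨g.φ, g.σ, g.τ, rdW g.a, rdW g.b⟩

/-- The first `|U|` gates. -/
noncomputable def preI (V B : Type) (U : Finset V) : List (IGate (V ⊕ (B ⊕ {v // v ∈ U}))) :=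
  List.ofFn fun i => ⟨minR, true, true, .var (.inl (U.equivFin.symm i).1),
    .var (.inr (.inr (U.equivFin.symm i)))⟩

/-- The interval of a bit. -/
noncomputable def bitI : Option Bool → ℝ × ℝ
  | some b => (if b then 1 else 0, if b then 1 else 0)
  | none => (0, 1)

omit [DecidableEq V] in
lemma valsI_pre_aux {ι α : Type} (q : ι → Option Bool) (a b : α → ι) (L : List α)
    (l : List (ℝ × ℝ)) :
    valsI q (L.map fun t => (⟨minR, true, true, .var (a t), .var (b t)⟩ : IGate ι)) l =
      l ++ L.map fun t => bitI (kAnd (q (a t)) (q (b t))) := by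
  induction L generalizing l with
  | nil => simp [valsI]
  | cons t L ih =>
    have h : ∀ l, IGate.range q l (⟨minR, true, true, .var (a t), .var (b t)⟩ : IGate ι) =
        bitI (kAnd (q (a t)) (q (b t))) := by
      intro l
      unfold IGate.range
      simp only [sgnI, if_true, wireI]
      show (min _ _, min _ _) = _
      rcases q (a t) with _ | (_ | _) <;> rcases q (b t) with _ | (_ | _) <;>
        simp [kAnd, bitI]
    simp only [List.map_cons, valsI, h]
    rw [ih]
    simp

omit [DecidableEq V] in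
lemma valsI_pre (q : V ⊕ (B ⊕ {v // v ∈ U}) → Option Bool) :
    valsI q (preI V B U) [] = List.ofFn fun i =>
      (fun z : {v // v ∈ U} => bitI (kAnd (q (.inl z.1)) (q (.inr (.inr z)))))
        (U.equivFin.symm i) := by
  have h := valsI_pre_aux q (fun i : Fin U.card => Sum.inl (U.equivFin.symm i).1)
    (fun i => Sum.inr (Sum.inr (U.equivFin.symm i))) (List.ofFn fun i : Fin U.card => i) []
  rw [List.map_ofFn, List.map_ofFn, List.nil_append] at h
  exact h

lemma wireI_rd (q : V ⊕ (B ⊕ {v // v ∈ U}) → Option Bool) (l : List (ℝ × ℝ))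
    (a : Wire (V ⊕ B)) :
    wireI q (valsI q (preI V B U) [] ++ l) (rdW a) = wireI (rdP q) l a := by
  rw [valsI_pre]
  rcases a with (v | b) | c | j
  · by_cases h : v ∈ U
    · simp only [rdW, dif_pos h, wireI, rdP]
      rw [getD_ofFn_equiv (fun z : {v // v ∈ U} =>
        bitI (kAnd (q (.inl z.1)) (q (.inr (.inr z))))) l (0, 0) ⟨v, h⟩]
      rcases kAnd (q (.inl v)) (q (.inr (.inr ⟨v, h⟩))) with _ | b <;> rfl
    · simp only [rdW, dif_neg h, wireI, rdP]
  · rfl
  · rfl
  · exact getD_ofFn_shift _ l (0, 0) j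

lemma valsI_rd (q : V ⊕ (B ⊕ {v // v ∈ U}) → Option Bool) (C : ICircuit (V ⊕ B))
    (l : List (ℝ × ℝ)) :
    valsI q (List.map rdI C) (valsI q (preI V B U) [] ++ l) =
      valsI q (preI V B U) [] ++ valsI (rdP q) C l := by
  induction C generalizing l with
  | nil => rfl
  | cons g C ih =>
    have hg : (rdI g).range q (valsI q (preI V B U) [] ++ l) = g.range (rdP q) l := by
      simp only [IGate.range, rdI, wireI_rd]
    simp only [List.map_cons, valsI, hg]
    rw [List.append_assoc, ih]

lemma range_rd (q : V ⊕ (B ⊕ {v // v ∈ U}) → Option Bool) (C : ICircuit (V ⊕ B))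
    (a : Wire (V ⊕ B)) :
    ICircuit.range (preI V B U ++ List.map rdI C) q (rdW a) = C.range (rdP q) a := by
  unfold ICircuit.range
  rw [valsI_append]
  have h := valsI_rd q C []
  rw [List.append_nil] at h
  rw [h, wireI_rd]

/-- **Nondeterministic circuits with real gates, interval arithmetic.** -/
theorem conv_guess_ival [Fintype B] (f : (V → Bool) → Bool) (hf : Monotone f) (U : Finset V)
    {A : ℕ} (C : ICircuit (V ⊕ B)) (a : Wire (V ⊕ B))
    (hC : ∀ x, f x = true ↔ ∃ y : B → Bool, 0 < C.val (Sum.elim x y) a)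
    (hA : ∀ x, {y : B → Bool | 0 < C.val (Sum.elim x y) a}.ncard ≤ A) :
    ∃ (D : ICircuit (V ⊕ (B ⊕ {v // v ∈ U}))) (b : Wire (V ⊕ (B ⊕ {v // v ∈ U}))),
      D.size = C.size + U.card ∧
      (∀ x, f x = true ↔ ∃ y, 0 < D.val (Sum.elim x y) b) ∧
      (∀ x, {y | 0 < D.val (Sum.elim x y) b}.ncard ≤ 2 ^ U.card * A) ∧
      ∀ x, f x = true → ∃ y : B ⊕ {v // v ∈ U} → Bool,
        0 < (D.range (Sum.elim (hide U ∅ x) fun g => some (y g)) b).1 := by
  set D : ICircuit (V ⊕ (B ⊕ {v // v ∈ U})) := preI V B U ++ List.map rdI C with hD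
  have hv : ∀ {ι : Type} (E : ICircuit ι) (w : Wire ι) (x : ι → Bool),
      0 < E.val x w ↔ 0 < (E.range (fun i => some (x i)) w).1 := by
    intro ι E w x
    rw [range_some]
  obtain ⟨h1, h2, h3⟩ := guess_general f hf (A := A)
    (fun p => 0 < (C.range p a).1) (fun q => 0 < (D.range q (rdW a)).1)
    (fun q => by rw [hD, range_rd]) (fun x => by simp only [← hv]; exact hC x)
    (fun x => by simp only [← hv]; exact hA x)
  refine ⟨D, rdW a, ?_, fun x => ?_, fun x => ?_, h3⟩
  · rw [hD]
    unfold ICircuit.size preI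
    rw [List.length_append, List.length_ofFn, List.length_map]
    omega
  · simp only [hv]
    exact h1 x
  · simp only [hv]
    exact h2 x

end

end Pool.Agent.LocT
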