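import Pool.Agent.LocT.Addr
import Pool.Agent.LocS.NP

/-!
# The language is in NP
-/

set_option autoImplicit false

namespace Pool.Agent.LocT

open Finset Pool.Agent.PolyTime Pool.Agent.NegLim Pool.Agent.NegLim.Lang Pool.Agent.NegLim.NPL
  Pool.Agent.LocE Pool.Agent.LocS

/-- The certificate `wb`, read from its number `o` on, shows that the selectors `k + v` contain the
graph of a polynomial with `c` coefficients modulo `q` over the points `0, ..., N - 1`. -/
def GW (c N q S n l k o : ℕ) (xb wb : ℕ → Bool) : Prop :=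
  ∀ i < N, tval wb q (o + (c + i * (c + 1))) = 0 ∧
    (∀ j < c, tval wb q (o + (c + i * (c + 1) + (j + 1)))
      = (tval wb q (o + (c + i * (c + 1) + j)) * i + tval wb q (o + j)) % q) ∧
    SV S n l xb (k + (i * q + tval wb q (o + (c + i * (c + 1) + c))))

/-- The length of the certificate of a block. -/
def cl (l w : ℕ) : ℕ := 2 * w + sN l w * (2 * w + 1)

/-- The verifier. -/
def VerT (d : ℕ) (y : List Bool) : Prop :=
  ∃ j < lgc (plen y), (2 * pw 2 y.length j + 1) * lgc (plen y) ≤ plen y / d ∧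
    sq (lgc (plen y)) (pw 2 y.length j) ≤ plen y ∧
    0 < sr (plen y) (lgc (plen y)) (pw 2 y.length j) ∧
    ∃ h < 2, ∀ k < sr (plen y) (lgc (plen y)) (pw 2 y.length j),
      GW (2 * pw 2 y.length j) (sN (lgc (plen y)) (pw 2 y.length j))
        (sq (lgc (plen y)) (pw 2 y.length j)) y.length (plen y) (lgc (plen y))
        (j * srho (plen y) (lgc (plen y)) +
          (h * sr (plen y) (lgc (plen y)) (pw 2 y.length j) + k) *
            sB (lgc (plen y)) (pw 2 y.length j))
        (k * cl (lgc (plen y)) (pw 2 y.length j))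
        (xbit y) (sbit y)

section

variable {α : Type} [Ctx α]

lemma pd_gw {C N Q K O : List Bool → α → ℕ} (hC : PF C) (hN : PF N) (hQ : PF Q) (hK : PF K)
    (hO : PF O) :
    PD (fun y a => GW (C y a) (N y a) (Q y a) y.length (plen y) (lgc (plen y)) (K y a) (O y a)
      (xbit y) (sbit y)) := by
  -- contexts: α, i, j
  have hi : PF (fun (_ : List Bool) (r : α × ℕ) => r.2) := PF.snd
  have hC1 : PF (fun y (r : α × ℕ) => C y r.1) := hC.fst
  have hQ1 : PF (fun y (r : α × ℕ) => Q y r.1) := hQ.fst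
  have hO1 : PF (fun y (r : α × ℕ) => O y r.1) := hO.fst
  have hb : PF (fun y (r : α × ℕ) => C y r.1 + r.2 * (C y r.1 + 1)) :=
    hC1.add (hi.mul (hC1.add (PF.const 1)))
  have c1 : PD (fun y (r : α × ℕ) =>
      tval (sbit y) (Q y r.1) (O y r.1 + (C y r.1 + r.2 * (C y r.1 + 1))) = 0) :=
    PD.eq (pf_tval hQ1 (hO1.add hb)) (PF.const 0)
  have c2 : PD (fun y (r : α × ℕ) => ∀ j < C y r.1,
      tval (sbit y) (Q y r.1) (O y r.1 + (C y r.1 + r.2 * (C y r.1 + 1) + (j + 1)))
        = (tval (sbit y) (Q y r.1) (O y r.1 + (C y r.1 + r.2 * (C y r.1 + 1) + j)) * r.2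
            + tval (sbit y) (Q y r.1) (O y r.1 + j)) % Q y r.1) :=
    PD.forall_lt (P := fun y (t : (α × ℕ) × ℕ) =>
      tval (sbit y) (Q y t.1.1) (O y t.1.1 + (C y t.1.1 + t.1.2 * (C y t.1.1 + 1) + (t.2 + 1)))
        = (tval (sbit y) (Q y t.1.1) (O y t.1.1 + (C y t.1.1 + t.1.2 * (C y t.1.1 + 1) + t.2))
            * t.1.2 + tval (sbit y) (Q y t.1.1) (O y t.1.1 + t.2)) % Q y t.1.1) hC1
      (PD.eq (pf_tval hQ1.fst (hO1.fst.add (hb.fst.add (PF.snd.add (PF.const 1)))))
        ((((pf_tval hQ1.fst (hO1.fst.add (hb.fst.add PF.snd))).mul hi.fst).add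
          (pf_tval hQ1.fst (hO1.fst.add PF.snd))).mod hQ1.fst))
  have c3 : PD (fun y (r : α × ℕ) =>
      SV y.length (plen y) (lgc (plen y)) (xbit y)
        (K y r.1 + (r.2 * Q y r.1
          + tval (sbit y) (Q y r.1) (O y r.1 + (C y r.1 + r.2 * (C y r.1 + 1) + C y r.1))))) :=
    pd_svx (hK.fst.add ((hi.mul hQ1).add (pf_tval hQ1 (hO1.add (hb.add hC1)))))
  exact PD.forall_lt (B := fun y (r : α) => N y r)
    (P := fun y (r : α × ℕ) =>
      tval (sbit y) (Q y r.1) (O y r.1 + (C y r.1 + r.2 * (C y r.1 + 1))) = 0 ∧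
      (∀ j < C y r.1,
      tval (sbit y) (Q y r.1) (O y r.1 + (C y r.1 + r.2 * (C y r.1 + 1) + (j + 1)))
        = (tval (sbit y) (Q y r.1) (O y r.1 + (C y r.1 + r.2 * (C y r.1 + 1) + j)) * r.2
            + tval (sbit y) (Q y r.1) (O y r.1 + j)) % Q y r.1) ∧
      SV y.length (plen y) (lgc (plen y)) (xbit y)
        (K y r.1 + (r.2 * Q y r.1
          + tval (sbit y) (Q y r.1) (O y r.1 + (C y r.1 + r.2 * (C y r.1 + 1) + C y r.1)))))
    hN (c1.and (c2.and c3))

theorem pd_verT (d : ℕ) : PD (fun y (_ : α) => VerT d y) := by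
  have hl : ∀ {β : Type} [Ctx β], PF (fun y (_ : β) => lgc (plen y)) := fun {β} _ =>
    pf_lgc pf_plen
  have hw : PF (fun y (r : α × ℕ) => pw 2 y.length r.2) := pf_pw (PF.const 2) PF.len PF.snd
  have c1 : PD (fun y (r : α × ℕ) =>
      (2 * pw 2 y.length r.2 + 1) * lgc (plen y) ≤ plen y / d) :=
    PD.le ((((PF.const 2).mul hw).add (PF.const 1)).mul hl) (pf_plen.div (PF.const d))
  have c2 : PD (fun y (r : α × ℕ) => sq (lgc (plen y)) (pw 2 y.length r.2) ≤ plen y) :=
    PD.le (pf_sq hl hw) pf_plen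
  have hsr : PF (fun y (r : α × ℕ) => sr (plen y) (lgc (plen y)) (pw 2 y.length r.2)) :=
    pf_sr pf_plen hl hw
  have c0 : PD (fun y (r : α × ℕ) => 0 < sr (plen y) (lgc (plen y)) (pw 2 y.length r.2)) :=
    PD.lt (PF.const 0) hsr
  have hw3 : PF (fun y (t : ((α × ℕ) × ℕ) × ℕ) => pw 2 y.length t.1.1.2) := hw.fst.fst
  have hsr3 : PF (fun y (t : ((α × ℕ) × ℕ) × ℕ) =>
      sr (plen y) (lgc (plen y)) (pw 2 y.length t.1.1.2)) := hsr.fst.fst
  have hcl : PF (fun y (t : ((α × ℕ) × ℕ) × ℕ) => cl (lgc (plen y)) (pw 2 y.length t.1.1.2)) :=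
    ((PF.const 2).mul hw3).add ((pf_sN hl hw3).mul (((PF.const 2).mul hw3).add (PF.const 1)))
  have c3 : PD (fun y (t : ((α × ℕ) × ℕ) × ℕ) =>
      GW (2 * pw 2 y.length t.1.1.2) (sN (lgc (plen y)) (pw 2 y.length t.1.1.2))
        (sq (lgc (plen y)) (pw 2 y.length t.1.1.2)) y.length (plen y) (lgc (plen y))
        (t.1.1.2 * srho (plen y) (lgc (plen y)) +
          (t.1.2 * sr (plen y) (lgc (plen y)) (pw 2 y.length t.1.1.2) + t.2) *
            sB (lgc (plen y)) (pw 2 y.length t.1.1.2))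
        (t.2 * cl (lgc (plen y)) (pw 2 y.length t.1.1.2))
        (xbit y) (sbit y)) :=
    pd_gw ((PF.const 2).mul hw3) (pf_sN hl hw3) (pf_sq hl hw3)
      ((PF.snd.fst.fst.mul (pf_srho pf_plen hl)).add
        (((PF.snd.fst.mul hsr3).add PF.snd).mul (pf_sB hl hw3)))
      (PF.snd.mul hcl)
  have c4 : PD (fun y (t : (α × ℕ) × ℕ) =>
      ∀ k < sr (plen y) (lgc (plen y)) (pw 2 y.length t.1.2),
      GW (2 * pw 2 y.length t.1.2) (sN (lgc (plen y)) (pw 2 y.length t.1.2))
        (sq (lgc (plen y)) (pw 2 y.length t.1.2)) y.length (plen y) (lgc (plen y))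
        (t.1.2 * srho (plen y) (lgc (plen y)) +
          (t.2 * sr (plen y) (lgc (plen y)) (pw 2 y.length t.1.2) + k) *
            sB (lgc (plen y)) (pw 2 y.length t.1.2))
        (k * cl (lgc (plen y)) (pw 2 y.length t.1.2))
        (xbit y) (sbit y)) :=
    PD.forall_lt (B := fun y (t : (α × ℕ) × ℕ) =>
        sr (plen y) (lgc (plen y)) (pw 2 y.length t.1.2))
      (P := fun y (t : ((α × ℕ) × ℕ) × ℕ) =>
      GW (2 * pw 2 y.length t.1.1.2) (sN (lgc (plen y)) (pw 2 y.length t.1.1.2))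
        (sq (lgc (plen y)) (pw 2 y.length t.1.1.2)) y.length (plen y) (lgc (plen y))
        (t.1.1.2 * srho (plen y) (lgc (plen y)) +
          (t.1.2 * sr (plen y) (lgc (plen y)) (pw 2 y.length t.1.1.2) + t.2) *
            sB (lgc (plen y)) (pw 2 y.length t.1.1.2))
        (t.2 * cl (lgc (plen y)) (pw 2 y.length t.1.1.2))
        (xbit y) (sbit y)) hsr.fst c3
  have c5 := PD.exists_lt (B := fun (y : List Bool) (r : α × ℕ) => 2) (PF.const 2) c4
  exact PD.exists_lt (B := fun y (_ : α) => lgc (plen y))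
    (P := fun y (r : α × ℕ) =>
      (2 * pw 2 y.length r.2 + 1) * lgc (plen y) ≤ plen y / d ∧
      sq (lgc (plen y)) (pw 2 y.length r.2) ≤ plen y ∧
      0 < sr (plen y) (lgc (plen y)) (pw 2 y.length r.2) ∧
      ∃ h < 2, ∀ k < sr (plen y) (lgc (plen y)) (pw 2 y.length r.2),
      GW (2 * pw 2 y.length r.2) (sN (lgc (plen y)) (pw 2 y.length r.2))
        (sq (lgc (plen y)) (pw 2 y.length r.2)) y.length (plen y) (lgc (plen y))
        (r.2 * srho (plen y) (lgc (plen y)) +
          (h * sr (plen y) (lgc (plen y)) (pw 2 y.length r.2) + k) *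
            sB (lgc (plen y)) (pw 2 y.length r.2))
        (k * cl (lgc (plen y)) (pw 2 y.length r.2))
        (xbit y) (sbit y)) hl (c1.and (c2.and (c0.and c5)))

end

open Classical in
theorem verT_polyTime (d : ℕ) : Nonempty (Turing.TM2ComputableInPolyTime
    (id : List Bool → List Bool) (id : List Bool → List Bool)
    (fun y => [decide (VerT d y)])) := by
  apply PFBits.polyTime
  refine ⟨fun _ => 1, fun w _ => if VerT d w then 1 else 0, PF.const 1, ?_, ?_⟩
  · exact PF.ite (P := fun w (_ : Unit × ℕ) => VerT d w) (pd_verT d) (PF.const 1) (PF.const 0)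
  · intro w
    by_cases h : VerT d w <;> simp [h]

lemma tval_shift (wb : ℕ → Bool) (q o t : ℕ) :
    tval (fun i => wb (o * q + i)) q t = tval wb q (o + t) := by
  unfold tval
  have h : ∀ v, o * q + (t * q + v) = (o + t) * q + v := fun v => by ring
  simp only [h]

open Classical in
lemma gw_iff_vacc (c N q S n l k o : ℕ) (xb wb : ℕ → Bool) :
    GW c N q S n l k o xb wb ↔
      VAcc c N q (fun v => decide (SV S n l xb (k + v))) (fun i => wb (o * q + i)) := by
  unfold GW VAcc
  simp only [decide_eq_true_eq, tval_shift]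

lemma tval_congr {wb wb' : ℕ → Bool} {q t : ℕ} (h : ∀ v < q, wb (t * q + v) = wb' (t * q + v)) :
    tval wb q t = tval wb' q t := by
  classical
  unfold tval
  congr 2
  ext v
  rw [mem_filter, mem_filter, mem_range]
  refine and_congr_right fun hv => ?_
  rw [h v hv]

lemma vacc_congr {c N q : ℕ} {xb wb wb' : ℕ → Bool}
    (h : ∀ i < (c + N * (c + 1)) * q, wb i = wb' i) (hv : VAcc c N q xb wb) :
    VAcc c N q xb wb' := by
  have ht : ∀ t < c + N * (c + 1), tval wb q t = tval wb' q t := by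
    intro t ht
    refine tval_congr fun v hv => h _ ?_
    calc t * q + v < t * q + q := by omega
      _ = (t + 1) * q := by ring
      _ ≤ (c + N * (c + 1)) * q := Nat.mul_le_mul_right q ht
  intro i hi
  have hlt : ∀ j ≤ c, c + i * (c + 1) + j < c + N * (c + 1) := by
    intro j hj
    have h1 : (i + 1) * (c + 1) ≤ N * (c + 1) := Nat.mul_le_mul_right _ hi
    have h2 : (i + 1) * (c + 1) = i * (c + 1) + (c + 1) := by ring
    omega
  obtain ⟨h0, h1, h2⟩ := hv i hi
  have h00 := hlt 0 (Nat.zero_le _)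
  refine ⟨?_, fun j hj => ?_, ?_⟩
  · rw [← ht _ (by omega)]
    exact h0
  · rw [← ht _ (hlt (j + 1) hj), ← ht _ (hlt j hj.le), ← ht j (by omega)]
    exact h1 j hj
  · rw [← ht _ (hlt c le_rfl)]
    exact h2

/-- The words `W 0, ..., W (R - 1)` one after the other, all of length `M`. -/
lemma exists_concat (R M : ℕ) (W : ℕ → List Bool) : ∃ w : List Bool, w.length = R * M ∧
    ∀ k < R, ∀ i < M, w.getD (k * M + i) false = (W k).getD i false := by
  refine ⟨List.ofFn fun p : Fin (R * M) => (W ((p : ℕ) / M)).getD ((p : ℕ) % M) false,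
    List.length_ofFn, fun k hk i hi => ?_⟩
  have hlt : k * M + i < R * M := by
    calc k * M + i < k * M + M := by omega
      _ = (k + 1) * M := by ring
      _ ≤ R * M := Nat.mul_le_mul_right M hk
  have hM : 0 < M := by omega
  rw [List.getD_eq_getElem _ _ (by rw [List.length_ofFn]; exact hlt), List.getElem_ofFn]
  simp only
  rw [show k * M + i = i + M * k from by ring, Nat.add_mul_div_left _ _ hM,
    Nat.div_eq_of_lt hi, zero_add, Nat.add_mul_mod_self_left, Nat.mod_eq_of_lt hi]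

open Classical in
/-- **The language is in NP.** -/
theorem langT_inNP (d : ℕ) : InNP (langT d) := by
  refine ⟨fun y => decide (VerT d y), 4, verT_polyTime d, fun z => ?_⟩
  obtain ⟨n, x, rfl⟩ : ∃ (n : ℕ) (x : Fin n → Bool), z = List.ofFn x :=
    ⟨z.length, fun i => z.get i, (List.ofFn_get z).symm⟩
  rw [langT_iff]
  simp only [decide_eq_true_eq]
  rcases Nat.eq_zero_or_pos n with hn0 | hn
  · -- the empty word
    subst hn0
    constructor
    · rintro ⟨j, -, -, -, hh, -⟩
      exfalso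
      unfold sr at hh
      rw [Nat.zero_div] at hh
      omega
    · rintro ⟨w, -, j, -, -, -, hh, -⟩
      exfalso
      rw [plen_pair, List.length_ofFn] at hh
      unfold sr at hh
      rw [Nat.zero_div] at hh
      omega
  set l := lgc n with hl
  have hl2 : 2 ^ (l - 1) ≤ n + 1 := by
    rw [hl, lgc_eq, Nat.add_sub_cancel]
    exact Nat.pow_log_le_self 2 (by omega)
  have hl1 : 1 ≤ l := by
    rw [hl, lgc_eq]
    omega
  -- the length of a pair
  have hlen : ∀ w : List Bool, n + 1 < (pairWord (List.ofFn x) w).length := by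
    intro w
    rw [length_pairWord, List.length_ofFn]
    omega
  have hpw : ∀ (w : List Bool) (j : ℕ), j < l →
      pw 2 (pairWord (List.ofFn x) w).length j = 2 ^ j := by
    intro w j hj
    apply pw_eq Nat.prime_two
    have h1 : 2 ^ j ≤ 2 ^ (l - 1) := Nat.pow_le_pow_right (by norm_num) (by omega)
    have := hlen w
    omega
  -- the value of a selector
  have hsv : ∀ (w : List Bool) (k : ℕ), k < n / (2 * l) →
      (SV (pairWord (List.ofFn x) w).length n l (xbit (pairWord (List.ofFn x) w)) k ↔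
        ∃ p < n, (List.ofFn x).getD p false = true ∧ ∀ t < l,
          (List.ofFn x).getD ((k * l + t) * 2 + p / 2 ^ t % 2) false = true) := by
    intro w k hk
    rw [sv_iff (by have := hlen w; omega)]
    have hk2 : (k + 1) * (2 * l) ≤ n :=
      (Nat.mul_le_mul_right _ hk).trans (Nat.div_mul_le_self _ _)
    refine exists_congr fun p => and_congr_right fun hp => ?_
    rw [xbit_pair _ _ _ (by rw [List.length_ofFn]; exact hp)]
    refine and_congr_right fun _ => forall₂_congr fun t ht => ?_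
    rw [xbit_pair _ _ _ (by
      rw [List.length_ofFn]
      have h1 : p / 2 ^ t % 2 ≤ 1 := by omega
      have h2 : (k + 1) * (2 * l) = k * l * 2 + 2 * l := by ring
      have h3 : (k * l + t) * 2 = k * l * 2 + 2 * t := by ring
      omega)]
  have hnum : ∀ (j h k : ℕ), h < 2 → k < sr n l (2 ^ j) →
      h * sr n l (2 ^ j) + k < 2 * sr n l (2 ^ j) := by
    intro j h k hh hk
    have h1 : h * sr n l (2 ^ j) ≤ 1 * sr n l (2 ^ j) := Nat.mul_le_mul_right _ (by omega)
    omega
  constructor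
  · rintro ⟨j, hj, hc1, hc2, hr0, h, hh, hall⟩
    have hqp : (sq l (2 ^ j)).Prime := (sq_spec l j).1
    have hsrB : sr n l (2 ^ j) * sB l (2 ^ j) ≤ n := by
      have h1 := blocks_le (n := n) (l := l) j (by
        by_contra hcon
        have h0 : sB l (2 ^ j) = 0 := by omega
        unfold sr at hr0
        rw [h0, mul_zero, Nat.div_zero] at hr0
        omega)
      have h2 : srho n l ≤ n := Nat.div_le_self _ _
      have h3 : 2 * sr n l (2 ^ j) * sB l (2 ^ j) = 2 * (sr n l (2 ^ j) * sB l (2 ^ j)) := by ring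
      omega
    have hB : sB l (2 ^ j) ≤ n :=
      (Nat.le_mul_of_pos_left _ hr0).trans hsrB
    have hblock : ∀ k : ℕ, ∃ w : List Bool, k < sr n l (2 ^ j) →
        VAcc (2 * 2 ^ j) (sN l (2 ^ j)) (sq l (2 ^ j))
          (fun v => decide (∃ p < n, (List.ofFn x).getD p false = true ∧ ∀ t < l,
            (List.ofFn x).getD (((j * srho n l + (h * sr n l (2 ^ j) + k) * sB l (2 ^ j) + v) * l
              + t) * 2 + p / 2 ^ t % 2) false = true)) (fun i => w.getD i false) := by
      intro k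
      by_cases hk : k < sr n l (2 ^ j)
      · obtain ⟨c, hc⟩ := hall k hk
        have hacc : Acc (2 * 2 ^ j) (sN l (2 ^ j)) (sq l (2 ^ j))
            (sq l (2 ^ j) ^ (2 * 2 ^ j + 1))
            (fun v => decide (∃ p < n, (List.ofFn x).getD p false = true ∧ ∀ t < l,
              (List.ofFn x).getD (((j * srho n l + (h * sr n l (2 ^ j) + k) * sB l (2 ^ j) + v)
                * l + t) * 2 + p / 2 ^ t % 2) false = true)) := by
          rw [acc_iff le_rfl]
          exact ⟨c, fun i hi => by rw [decide_eq_true_eq]; exact hc i hi⟩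
        rw [acc_iff_hor hqp le_rfl] at hacc
        obtain ⟨f, hf, hH⟩ := hacc
        obtain ⟨w, -, hv⟩ := hor_vacc (c := 2 * 2 ^ j) (N := sN l (2 ^ j))
          (xb := fun v => decide (∃ p < n, (List.ofFn x).getD p false = true ∧ ∀ t < l,
              (List.ofFn x).getD (((j * srho n l + (h * sr n l (2 ^ j) + k) * sB l (2 ^ j) + v)
                * l + t) * 2 + p / 2 ^ t % 2) false = true)) hqp.pos hf hH
        exact ⟨w, fun _ => hv⟩
      · exact ⟨[], fun h => absurd h hk⟩
    choose W hW using hblock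
    obtain ⟨w, hwl, hw⟩ := exists_concat (sr n l (2 ^ j)) (cl l (2 ^ j) * sq l (2 ^ j)) W
    refine ⟨w, ?_, ?_⟩
    · rw [hwl, List.length_ofFn]
      have hcN : 2 * 2 ^ j ≤ sN l (2 ^ j) := by
        unfold sN
        calc 2 * 2 ^ j ≤ 4 * 2 ^ j := by omega
          _ = 4 * 2 ^ j * 1 := by ring
          _ ≤ 4 * 2 ^ j * l := Nat.mul_le_mul_left _ hl1
      have hNn : sN l (2 ^ j) ≤ n := by
        refine le_trans ?_ hB
        unfold sB
        exact Nat.le_mul_of_pos_right _ hqp.pos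
      have h1 : cl l (2 ^ j) ≤ sN l (2 ^ j) + sN l (2 ^ j) * (sN l (2 ^ j) + 1) := by
        unfold cl
        have : sN l (2 ^ j) * (2 * 2 ^ j + 1) ≤ sN l (2 ^ j) * (sN l (2 ^ j) + 1) :=
          Nat.mul_le_mul_left _ (by omega)
        omega
      have h2 : (sN l (2 ^ j) + sN l (2 ^ j) * (sN l (2 ^ j) + 1)) * sq l (2 ^ j)
          = (sN l (2 ^ j) + 2) * (sB l (2 ^ j)) := by
        unfold sB
        ring
      calc sr n l (2 ^ j) * (cl l (2 ^ j) * sq l (2 ^ j))
          ≤ sr n l (2 ^ j) * ((sN l (2 ^ j) + 2) * sB l (2 ^ j)) := by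
            rw [← h2]
            exact Nat.mul_le_mul_left _ (Nat.mul_le_mul_right _ h1)
        _ = (sN l (2 ^ j) + 2) * (sr n l (2 ^ j) * sB l (2 ^ j)) := by ring
        _ ≤ (n + 2) * n := Nat.mul_le_mul (by omega) hsrB
        _ ≤ n ^ 4 + 4 := pow4_bound n
    · unfold VerT
      rw [plen_pair, List.length_ofFn, ← hl]
      refine ⟨j, hj, ?_⟩
      rw [hpw w j hj]
      refine ⟨hc1, hc2, hr0, h, hh, fun k hk => ?_⟩
      rw [gw_iff_vacc]
      have hs : (fun i => sbit (pairWord (List.ofFn x) w)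
          (k * cl l (2 ^ j) * sq l (2 ^ j) + i)) =
          fun i => w.getD (k * (cl l (2 ^ j) * sq l (2 ^ j)) + i) false := by
        funext i
        rw [sbit_pair, mul_assoc]
      rw [hs]
      refine vacc_congr (wb := fun i => (W k).getD i false) (fun i hi => (hw k hk i hi).symm) ?_
      refine vacc_mono (fun i hi h' => ?_) (hW k hk)
      rw [decide_eq_true_eq] at h' ⊢
      have hlt := (sel_lt (n := n) hl1 hj (hnum j h k hh hk) hi
        (tval_lt (fun i => (W k).getD i false) hqp.pos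
        (2 * 2 ^ j + i * (2 * 2 ^ j + 1) + 2 * 2 ^ j))).2
      rw [hsv w _ hlt]
      exact h'
  · rintro ⟨w, -, hv⟩
    unfold VerT at hv
    rw [plen_pair, List.length_ofFn, ← hl] at hv
    obtain ⟨j, hj, hv⟩ := hv
    rw [hpw w j hj] at hv
    obtain ⟨hc1, hc2, hr0, h, hh, hg⟩ := hv
    have hqp : (sq l (2 ^ j)).Prime := (sq_spec l j).1
    refine ⟨j, hj, hc1, hc2, hr0, h, hh, fun k hk => ?_⟩
    have hgk := hg k hk
    rw [gw_iff_vacc] at hgk
    have h1 := vacc_hor hgk
    have hacc : Acc (2 * 2 ^ j) (sN l (2 ^ j)) (sq l (2 ^ j)) (sq l (2 ^ j) ^ (2 * 2 ^ j + 1))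
        (fun v => decide (∃ p < n, (List.ofFn x).getD p false = true ∧ ∀ t < l,
          (List.ofFn x).getD (((j * srho n l + (h * sr n l (2 ^ j) + k) * sB l (2 ^ j) + v) * l
            + t) * 2 + p / 2 ^ t % 2) false = true)) := by
      rw [acc_iff_hor hqp le_rfl]
      refine ⟨tval (fun i => sbit (pairWord (List.ofFn x) w)
          (k * cl l (2 ^ j) * sq l (2 ^ j) + i)) (sq l (2 ^ j)),
        fun t => tval_lt _ hqp.pos t, fun i hi => ?_⟩
      have h2 := h1 i hi
      rw [decide_eq_true_eq] at h2 ⊢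
      have hlt := (sel_lt (n := n) hl1 hj (hnum j h k hh hk) hi (hor_lt hqp.pos i
        (tval (fun i => sbit (pairWord (List.ofFn x) w)
          (k * cl l (2 ^ j) * sq l (2 ^ j) + i)) (sq l (2 ^ j))) (2 * 2 ^ j))).2
      rw [hsv w _ hlt] at h2
      exact h2
    rw [acc_iff le_rfl] at hacc
    obtain ⟨c, hc⟩ := hacc
    exact ⟨c, fun i hi => by
      have h3 := hc i hi
      rw [decide_eq_true_eq] at h3
      exact h3⟩

end Pool.Agent.LocT
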