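import Pool.Agent.LocT.Block
import Pool.Agent.LocT.Addr
import Pool.Agent.LocT.NP

/-!
# One language for all sizes: zeros of every set must be seen, real gates, any number of guesses
-/

set_option autoImplicit false

namespace Pool.Agent.LocT

open Finset Pool.Agent.NegLim Pool.Agent.NegLim.Lang Pool.Agent.NegLim.NPL Pool.Agent.NTR
  Pool.Agent.NTR.Gen Pool.Agent.NWE Pool.Agent.GB24 Pool.Agent.GB24.Loc
  Pool.Agent.NTN Pool.Agent.PolyTime Pool.Agent.LocE Pool.Agent.LocS Pool.Agent.RC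

/-- **Hidden zeros, real gates, one language for all sizes.** -/
theorem mainT : ∃ (C₀ : ℕ) (L : List Bool → Bool), InNP L ∧
    (∃ c : ℕ, DecidableInTime L (fun n => c * 2 ^ n)) ∧
    (∀ n : ℕ, Monotone fun x : Fin n → Bool => L (List.ofFn x)) ∧
    ∀ (n s : ℕ) (U : Finset (Fin n)),
      C₀ * (s + (Nat.log 2 n + 1)) ^ 2 * (Nat.log 2 n + 1) ^ 5 ≤ U.card →
      HardSet (fun x => L (List.ofFn x) = true) U
        (fun D => ∃ (C : ICircuit (Fin n)) (o : Wire (Fin n)),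
          C.size ≤ 2 ^ s ∧ ∀ p, D p = decide (0 < (C.range p o).1))
        (U.card + 1) ((2 ^ s) ^ (U.card / (C₀ * (s + (Nat.log 2 n + 1)) ^ 2
          * (Nat.log 2 n + 1) ^ 5))) ∧
      HardFew (fun x => L (List.ofFn x) = true) U
        (fun D => ∃ (C : ICircuit (Fin n)) (o : Wire (Fin n)),
          C.size ≤ 2 ^ s ∧ ∀ p, D p = decide (0 < (C.range p o).1))
        ((U.card + 1) * (U.card + 1)) ((2 ^ s) ^ (U.card / (C₀ * (s + (Nat.log 2 n + 1)) ^ 2
          * (Nat.log 2 n + 1) ^ 5))) := by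
  obtain ⟨d, hd, c, hc⟩ := langT_time
  refine ⟨d * 2 ^ 31, langT d, langT_inNP d, ⟨c, hc⟩, langT_mono d, fun n s U hU => ?_⟩
  have hUn : U.card ≤ n := (Finset.card_le_univ U).trans (by simp)
  have hn : 2 ≤ n := by
    refine le_trans ?_ (hU.trans hUn)
    have h1 : 1 ≤ (s + (Nat.log 2 n + 1)) ^ 2 := Nat.one_le_pow _ _ (by omega)
    have h2 : 1 ≤ (Nat.log 2 n + 1) ^ 5 := Nat.one_le_pow _ _ (by omega)
    calc 2 ≤ d * 2 ^ 31 * 1 * 1 := by omega
      _ ≤ _ := Nat.mul_le_mul (Nat.mul_le_mul_left _ h1) h2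
  have h : HardSet (fun x => langT d (List.ofFn x) = true) U
        (fun D => ∃ (C : ICircuit (Fin n)) (o : Wire (Fin n)),
          C.size ≤ 2 ^ s ∧ ∀ p, D p = decide (0 < (C.range p o).1))
        (U.card + 1) ((2 ^ s) ^ (U.card / (d * 2 ^ 31 * (s + (Nat.log 2 n + 1)) ^ 2
          * (Nat.log 2 n + 1) ^ 5))) :=
    hardSet_loc hn hd _ U hU fun j hj hc1 hc2 r' hrr hr0 hr =>
      exists_restriction d n j hj hc1 hc2 (two_le_lgc (by omega)) (lt_two_pow_lgc n).le U r'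
        hrr hr0 hr
  exact ⟨h, h.few fun D hD => by
    obtain ⟨F, hF, h1⟩ := ival_lits D hD
    exact ⟨F, (realClass (2 * 2 ^ s)).mono _ F hF, h1⟩⟩

end Pool.Agent.LocT
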